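import Pool.Agent.H82.STAT.Jbw
import Pool.Agent.H87.STAT.Nrm

/-!
# Row 121 NONW: the slope of the last coordinate is not an integer

The new label is the sheet of the adapted coordinates of the level `M`: `X n - Θ^M n`.
-/

set_option autoImplicit false

namespace Pool.STAT.Nonw

open Finset MvPolynomial
open Pool.Agent.H49.Ent Pool.Agent.H32.Dense Pool.STK Pool.KS3
open Pool.BFL (Pl CB Pb P2 MC alt)
open Pool.STAT.JBW (rd_pos rd_le_one unit_le lbase_Φs tri_Φs)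

variable {d : ℕ → ℕ}

/-! ### Adapted coordinates of a point -/

theorem eval_bind (b : ℕ → ℝ) (f : ℕ → PN) (F : PN) :
    eval b (bind₁ f F) = eval (fun i => eval b (f i)) F :=
  eval₂Hom_bind₁ (RingHom.id ℝ) b f F

/-- The adapted coordinates of a point. -/
noncomputable def ac (d : ℕ → ℕ) (Φ : ℕ → PN) (b : ℕ → ℝ) (i : ℕ) : ℝ :=
  eval b (tinv (adp d Φ) i)

/-- The differences of the adapted coordinates. -/
noncomputable def dlt (d : ℕ → ℕ) (Φ' Φ : ℕ → PN) (i : ℕ) : PN :=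
  bind₁ (adp d Φ) (tinv (adp d Φ') i) - X i

theorem inv1 (hX : AdxStmt) (hd0 : d 0 = 1) (hd : ∀ i, 1 ≤ d i) {Φ : ℕ → PN} (hΦ : TriN Φ)
    (i : ℕ) : bind₁ (tinv (adp d Φ)) (adp d Φ i) = X i :=
  ((hX.2 d Φ hd0 hd hΦ).2.2.1 (adp d Φ) (hX.2 d Φ hd0 hd hΦ).2.1).2.1 i

theorem inv2 (hX : AdxStmt) (hd0 : d 0 = 1) (hd : ∀ i, 1 ≤ d i) {Φ : ℕ → PN} (hΦ : TriN Φ)
    (i : ℕ) : bind₁ (adp d Φ) (tinv (adp d Φ) i) = X i :=
  ((hX.2 d Φ hd0 hd hΦ).2.2.1 (adp d Φ) (hX.2 d Φ hd0 hd hΦ).2.1).2.2 i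

theorem vars_tinv (hX : AdxStmt) (hd0 : d 0 = 1) (hd : ∀ i, 1 ≤ d i) {Φ : ℕ → PN}
    (hΦ : TriN Φ) (i : ℕ) : (tinv (adp d Φ) i - X i).vars ⊆ range i :=
  ((hX.2 d Φ hd0 hd hΦ).2.2.1 (adp d Φ) (hX.2 d Φ hd0 hd hΦ).2.1).1 i

theorem ac_inv (hX : AdxStmt) (hd0 : d 0 = 1) (hd : ∀ i, 1 ≤ d i) {Φ : ℕ → PN} (hΦ : TriN Φ)
    (b : ℕ → ℝ) (i : ℕ) : eval (ac d Φ b) (adp d Φ i) = b i := by
  have h := congrArg (eval b) (inv1 hX hd0 hd hΦ i)
  rw [eval_bind, eval_X] at h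
  exact h

theorem ac_sub (hX : AdxStmt) (hd0 : d 0 = 1) (hd : ∀ i, 1 ≤ d i) {Φ Φ' : ℕ → PN}
    (hΦ : TriN Φ) (b : ℕ → ℝ) (i : ℕ) :
    ac d Φ' b i - ac d Φ b i = eval (ac d Φ b) (dlt d Φ' Φ i) := by
  unfold dlt
  rw [map_sub, eval_bind, eval_X]
  have h : (fun j => eval (ac d Φ b) (adp d Φ j)) = b :=
    funext fun j => ac_inv hX hd0 hd hΦ b j
  rw [h]
  rfl

theorem bind_sheet (hX : AdxStmt) (hd0 : d 0 = 1) (hd : ∀ i, 1 ≤ d i) {Φ : ℕ → PN}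
    (hΦ : TriN Φ) (n : ℕ) :
    bind₁ (adp d Φ) (Φ n - (X n - tinv (adp d Φ) n)) =
      gew d (d n) (bind₁ (adp d Φ) (Φ n)) := by
  have h1 := (hX.2 d Φ hd0 hd hΦ).1 n
  have h3 : trw d (d n) (bind₁ (adp d Φ) (Φ n)) = adp d Φ n - X n := by
    rw [eq_sub_iff_add_eq, add_comm]
    exact h1.symm
  unfold gew
  rw [map_sub, map_sub, inv2 hX hd0 hd hΦ, bind₁_X_right, h3]

/-- Weights: evaluation of a polynomial of weight `< r` at a point of a larger ball. -/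
theorem eval_trw (d : ℕ → ℕ) {ρ R : ℝ} (hρ : 0 < ρ) (hR : 1 ≤ R) {r : ℕ} (hr : 1 ≤ r) {F : PN}
    (hF : trw d r F = F) (a : ℕ → ℝ) (ha : ∀ i ∈ F.vars, |a i| ≤ (R * ρ) ^ d i) :
    |eval a F| ≤ R ^ (r - 1) * nrm d ρ F := by
  have h1 := NRM.abs_eval_le d (ρ := R * ρ) a F ha
  have h2 := NRM.nrm_trw_scale d hρ (r - 1) F (R * ρ) (by nlinarith)
  rw [Nat.sub_add_cancel hr, hF, mul_div_assoc, div_self hρ.ne', mul_one] at h2
  exact h1.trans h2

/-- The norm of a weighted homogeneous polynomial. -/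
theorem nrm_hom (d : ℕ → ℕ) {F : PN} {m : ℕ} (hF : F.IsWeightedHomogeneous d m) (ρ : ℝ) :
    nrm d ρ F = ρ ^ m * nrm d 1 F := by
  unfold nrm
  rw [mul_sum]
  refine sum_congr rfl fun k hk => ?_
  rw [hF (mem_support_iff.mp hk), one_pow]
  ring

/-! ### The units -/

theorem rd_exp (z k : ℕ) : rd z k = Real.exp (-(k * z * Real.log 2)) := by
  unfold rd
  have h : (2 : ℝ) ^ (k * z) = Real.exp (k * z * Real.log 2) := by
    have h1 := Real.exp_nat_mul (Real.log 2) (k * z)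
    rw [Real.exp_log (by norm_num)] at h1
    rw [← h1]
    push_cast
    rfl
  rw [h, one_div, Real.exp_neg]

theorem rd_rpow (z k : ℕ) (x : ℝ) : rd z k ^ x = Real.exp (-(k * z * Real.log 2) * x) := by
  rw [rd_exp, Real.exp_mul]

theorem rd_pow (z k m : ℕ) : rd z k ^ m = Real.exp (-(k * z * Real.log 2) * m) := by
  rw [← rd_rpow, Real.rpow_natCast]

/-! ### One sample -/

/-- The bounds of the differences of adapted coordinates (from LAD). -/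
def Dl (d : ℕ → ℕ) (z : ℕ) (σ : ℕ → ℝ) (C₃ : ℝ) (N n' : ℕ) (Φ : ℕ → ℕ → PN) : Prop :=
  ∀ k ≤ N, ∀ k' ≤ k, ∀ i < n',
    (dlt d (Φ k') (Φ k) i).vars ⊆ range i ∧
      trw d (d i) (dlt d (Φ k') (Φ k) i) = dlt d (Φ k') (Φ k) i ∧
      ∀ v ≤ k', nrm d (rd z v) (dlt d (Φ k') (Φ k) i) ≤
        Real.exp (C₃ * z) * (rd z v ^ ((d i : ℝ) - 1) * rd z k' ^ (σ i - d i + 1))

/-- Adapted coordinates of all the later levels. -/
theorem ac_le (hX : AdxStmt) {n z v N : ℕ} {σ : ℕ → ℝ} {C₃ C₄ : ℝ} {Φ : ℕ → ℕ → PN}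
    (hS : Slp d σ n) (hC₃ : 1 ≤ C₃) (hC₄ : 1 ≤ C₄) (hz : 1 ≤ z)
    (hT : ∀ k ≤ N, TriN (Φ k)) (hD : Dl d z σ C₃ N (n + 1) Φ) (b : ℕ → ℝ)
    (h0 : ∀ j < n, |ac d (Φ v) b j| ≤ Real.exp (C₄ * z) * rd z v ^ d j)
    {k : ℕ} (hv : v ≤ k) (hk : k ≤ N) :
    ∀ j < n, |ac d (Φ k) b j| ≤ (Real.exp ((C₃ + C₄) * z) * rd z v) ^ d j := by
  have hρ := rd_pos z v
  have hz1 : (1 : ℝ) ≤ z := by exact_mod_cast hz
  have hR : 1 ≤ Real.exp ((C₃ + C₄) * z) := Real.one_le_exp (by positivity)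
  have e2 : ∀ x : ℝ, 1 ≤ x → 2 ≤ Real.exp x := fun x hx => by
    have := Real.add_one_le_exp x
    linarith
  have hsum : Real.exp (C₄ * z) + Real.exp (C₃ * z) ≤ Real.exp ((C₃ + C₄) * z) := by
    have h1 := e2 (C₃ * z) (by nlinarith)
    have h2 := e2 (C₄ * z) (by nlinarith)
    rw [add_mul, Real.exp_add]
    nlinarith
  intro j
  induction j using Nat.strong_induction_on with
  | _ j ih =>
    intro hj
    obtain ⟨h1, h2, h3⟩ := hD k hk v hv j (by omega)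
    have h4 := ac_sub hX hS.d_zero hS.d_pos (Φ := Φ k) (Φ' := Φ v) (hT k hk) b j
    have h5 := eval_trw d hρ hR (hS.d_pos j) h2 (ac d (Φ k) b)
      (fun i hi => ih i (mem_range.mp (h1 hi)) ((mem_range.mp (h1 hi)).trans hj))
    have h6 := h3 v le_rfl
    have h7 : rd z v ^ ((d j : ℝ) - 1) * rd z v ^ (σ j - d j + 1) = rd z v ^ d j := by
      rw [hS.int j hj, ← Real.rpow_add hρ, ← Real.rpow_natCast]
      congr 1
      ring
    rw [h7] at h6
    set E := Real.exp ((C₃ + C₄) * z) with hE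
    have hpw : E ^ d j = E ^ (d j - 1) * E := by
      rw [← pow_succ, Nat.sub_add_cancel (hS.d_pos j)]
    have hE1 : 1 ≤ E ^ (d j - 1) := one_le_pow₀ hR
    have h8 : |ac d (Φ k) b j| ≤ |ac d (Φ v) b j| + |eval (ac d (Φ k) b)
        (dlt d (Φ v) (Φ k) j)| := by
      have : ac d (Φ k) b j = ac d (Φ v) b j - eval (ac d (Φ k) b) (dlt d (Φ v) (Φ k) j) := by
        rw [← h4]
        ring
      rw [this]
      exact abs_sub _ _
    have hr : 0 ≤ rd z v ^ d j := (pow_pos hρ _).le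
    have h9 : |eval (ac d (Φ k) b) (dlt d (Φ v) (Φ k) j)| ≤
        E ^ (d j - 1) * (Real.exp (C₃ * z) * rd z v ^ d j) :=
      h5.trans (mul_le_mul_of_nonneg_left h6 (by positivity))
    have h10 : Real.exp (C₄ * z) * rd z v ^ d j ≤
        E ^ (d j - 1) * (Real.exp (C₄ * z) * rd z v ^ d j) :=
      le_mul_of_one_le_left (mul_nonneg (Real.exp_pos _).le hr) hE1
    have h11 : E ^ (d j - 1) * ((Real.exp (C₄ * z) + Real.exp (C₃ * z)) * rd z v ^ d j) ≤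
        E ^ (d j - 1) * (E * rd z v ^ d j) :=
      mul_le_mul_of_nonneg_left (mul_le_mul_of_nonneg_right hsum hr) (by positivity)
    rw [mul_pow, hpw]
    have h12 := h0 j hj
    calc |ac d (Φ k) b j| ≤ E ^ (d j - 1) * (Real.exp (C₄ * z) * rd z v ^ d j) +
          E ^ (d j - 1) * (Real.exp (C₃ * z) * rd z v ^ d j) :=
          h8.trans (add_le_add (h12.trans h10) h9)
      _ = E ^ (d j - 1) * ((Real.exp (C₄ * z) + Real.exp (C₃ * z)) * rd z v ^ d j) := by ring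
      _ ≤ E ^ (d j - 1) * (E * rd z v ^ d j) := h11
      _ = E ^ (d j - 1) * E * rd z v ^ d j := by ring

/-- The difference of two sheets. -/
theorem sheet_sub (hX : AdxStmt) {n z v N : ℕ} {σ : ℕ → ℝ} {C₃ C₄ : ℝ} {Φ : ℕ → ℕ → PN}
    (hS : Slp d σ n) (hC₃ : 1 ≤ C₃) (hC₄ : 1 ≤ C₄) (hz : 1 ≤ z)
    (hT : ∀ k ≤ N, TriN (Φ k)) (hD : Dl d z σ C₃ N (n + 1) Φ) (b : ℕ → ℝ)
    (h0 : ∀ j < n, |ac d (Φ v) b j| ≤ Real.exp (C₄ * z) * rd z v ^ d j)
    {k k' : ℕ} (hv : v ≤ k') (hk' : k' ≤ k) (hk : k ≤ N) :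
    |ac d (Φ k') b n - ac d (Φ k) b n| ≤
      Real.exp ((C₃ + C₄) * z) ^ (d n - 1) * (Real.exp (C₃ * z) *
        (rd z v ^ ((d n : ℝ) - 1) * rd z k' ^ (σ n - d n + 1))) := by
  have hρ := rd_pos z v
  have hR : 1 ≤ Real.exp ((C₃ + C₄) * z) := Real.one_le_exp (by positivity)
  obtain ⟨h1, h2, h3⟩ := hD k hk k' hk' n (by omega)
  rw [ac_sub hX hS.d_zero hS.d_pos (hT k hk) b n]
  refine (eval_trw d hρ hR (hS.d_pos n) h2 (ac d (Φ k) b) fun i hi =>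
    ac_le hX hS hC₃ hC₄ hz hT hD b h0 (hv.trans hk') hk i (mem_range.mp (h1 hi))).trans ?_
  exact mul_le_mul_of_nonneg_left (h3 v hv) (by positivity)

/-! ### One line -/

theorem tri_atT {Φ : ℕ → PN} (h : TriN (atT 0 Φ)) (t : ℝ) : TriN (atT t Φ) := by
  intro i
  rcases Nat.eq_zero_or_pos i with hi | hi
  · subst hi
    unfold atT
    rw [Function.update_self, vars_C]
    exact Finset.empty_subset _
  · have h1 := h i
    unfold atT at h1 ⊢
    rw [Function.update_of_ne hi.ne'] at h1 ⊢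
    exact h1

/-- The adapted coordinates of the line on a short window. -/
theorem line_ac (hX : AdxStmt) (hO : OdeStmt) (hd0 : d 0 = 1) (hd : ∀ i, 1 ≤ d i)
    {Φ : ℕ → PN} (hT : TriN (atT 0 Φ)) {n : ℕ} {b : ℕ → ℝ} {t t' ρ R B : ℝ} (hρ : 0 < ρ)
    (ht : |t' - t| ≤ ρ) (hR : 1 ≤ R) (hB : 0 ≤ B)
    (hf : ∀ u ∈ Set.uIcc t t', ∀ i ≤ n, nrm d 1 (fld d (atT u Φ) i) ≤ B)
    (ha : ∀ j < n, |ac d (atT t Φ) b j| ≤ (R * ρ) ^ d j) :
    |ac d (atT t' Φ) b n - ac d (atT t Φ) b n| ≤ ((R + B) * ρ) ^ d n := by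
  have hRB : 0 < (R + B) * ρ := by positivity
  -- the motion of one coordinate
  have hstep : ∀ j ≤ n, (∀ u ∈ Set.uIcc t t', ∀ i < j,
      |ac d (atT u Φ) b i| ≤ ((R + B) * ρ) ^ d i) → ∀ u ∈ Set.uIcc t t',
      |ac d (atT u Φ) b j - ac d (atT t Φ) b j| ≤ B * ρ * ((R + B) * ρ) ^ (d j - 1) := by
    intro j hj hi u hu
    have h1 : ∀ x ∈ Set.uIcc t t', HasDerivWithinAt (fun t => ac d (atT t Φ) b j)
        (-eval (fun i => eval b (tinv (adp d (atT x Φ)) i)) (fld d (atT x Φ) j))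
        (Set.uIcc t t') x := fun x _ => ((hO d Φ hd0 hd hT).2 b x j).hasDerivWithinAt
    have h2 : ∀ x ∈ Set.uIcc t t',
        ‖-eval (fun i => eval b (tinv (adp d (atT x Φ)) i)) (fld d (atT x Φ) j)‖ ≤
        B * ((R + B) * ρ) ^ (d j - 1) := by
      intro x hx
      have hA := hX.2 d (atT x Φ) hd0 hd (tri_atT hT x)
      have h3 : (fld d (atT x Φ) j).vars ⊆ range j := hA.2.2.2.2.2.1 j
      have h4 : (fld d (atT x Φ) j).IsWeightedHomogeneous d (d j - 1) := hA.2.2.2.2.2.2.1 j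
      rw [norm_neg, Real.norm_eq_abs]
      refine (NRM.abs_eval_le d (ρ := (R + B) * ρ) _ _ fun i hi' =>
        hi x hx i (mem_range.mp (h3 hi'))).trans ?_
      rw [nrm_hom d h4, mul_comm]
      exact mul_le_mul_of_nonneg_right (hf x hx j hj) (by positivity)
    have h5 := (convex_uIcc t t').norm_image_sub_le_of_norm_hasDerivWithin_le h1 h2
      Set.left_mem_uIcc hu
    have h6 : |u - t| ≤ ρ := (Set.abs_sub_left_of_mem_uIcc hu).trans ht
    rw [Real.norm_eq_abs, Real.norm_eq_abs] at h5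
    refine h5.trans ?_
    have h7 : 0 ≤ B * ((R + B) * ρ) ^ (d j - 1) := by positivity
    calc B * ((R + B) * ρ) ^ (d j - 1) * |u - t| ≤ B * ((R + B) * ρ) ^ (d j - 1) * ρ :=
          mul_le_mul_of_nonneg_left h6 h7
      _ = _ := by ring
  have hpw : ∀ j, ((R + B) * ρ) ^ d j = ((R + B) * ρ) ^ (d j - 1) * ((R + B) * ρ) := fun j => by
    rw [← pow_succ, Nat.sub_add_cancel (hd j)]
  have hall : ∀ j, j < n → ∀ u ∈ Set.uIcc t t', |ac d (atT u Φ) b j| ≤ ((R + B) * ρ) ^ d j := by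
    intro j
    induction j using Nat.strong_induction_on with
    | _ j ih =>
      intro hj u hu
      have h1 := hstep j hj.le (fun u hu i hi => ih i hi (hi.trans hj) u hu) u hu
      have h2 := ha j hj
      have h3 : (R * ρ) ^ d j ≤ ((R + B) * ρ) ^ (d j - 1) * (R * ρ) := by
        have : (R * ρ) ^ d j = (R * ρ) ^ (d j - 1) * (R * ρ) := by
          rw [← pow_succ, Nat.sub_add_cancel (hd j)]
        rw [this]
        refine mul_le_mul_of_nonneg_right (pow_le_pow_left₀ (by positivity) ?_ _) (by positivity)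
        nlinarith
      have h4 : |ac d (atT u Φ) b j| ≤ |ac d (atT t Φ) b j| +
          |ac d (atT u Φ) b j - ac d (atT t Φ) b j| := by
        have := abs_add_le (ac d (atT t Φ) b j) (ac d (atT u Φ) b j - ac d (atT t Φ) b j)
        rwa [add_sub_cancel] at this
      rw [hpw j]
      calc |ac d (atT u Φ) b j| ≤ ((R + B) * ρ) ^ (d j - 1) * (R * ρ) +
            B * ρ * ((R + B) * ρ) ^ (d j - 1) := h4.trans (add_le_add (h2.trans h3) h1)
        _ = _ := by ring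
  refine (hstep n le_rfl (fun u hu i hi => hall i hi u hu) t' Set.right_mem_uIcc).trans ?_
  rw [hpw n]
  have h5 : 0 ≤ ((R + B) * ρ) ^ (d n - 1) := by positivity
  have h6 : B * ρ ≤ (R + B) * ρ := by nlinarith
  calc B * ρ * ((R + B) * ρ) ^ (d n - 1) ≤ (R + B) * ρ * ((R + B) * ρ) ^ (d n - 1) :=
        mul_le_mul_of_nonneg_right h6 h5
    _ = _ := by ring

/-! ### Pairs -/

open Classical in
/-- Pairs of samples without bad samples. -/
theorem P2_ge {Ω G : Type} [Fintype Ω] {p : Ω → ℝ} (hp : IsLaw p) (g : Ω → G)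
    (A : Ω → Ω → Prop) (B : Ω → Prop)
    (h : ∀ ω ω', 0 < p ω → 0 < p ω' → g ω = g ω' → ¬ B ω → ¬ B ω' → A ω ω') :
    1 - 2 * Pb p B ≤ P2 p g A := by
  have hl : ∀ ω, 0 ≤ law p g (g ω) := fun ω => law_nonneg hp.nonneg g _
  obtain ⟨w, hw⟩ : ∃ w : Ω → Ω → ℝ, ∀ ω ω', w ω ω' =
    if g ω = g ω' then p ω * p ω' / law p g (g ω) else 0 := ⟨_, fun _ _ => rfl⟩
  have hw0 : ∀ ω ω', 0 ≤ w ω ω' := fun ω ω' => by
    rw [hw]
    split_ifs
    · exact div_nonneg (mul_nonneg (hp.nonneg _) (hp.nonneg _)) (hl _)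
    · exact le_rfl
  have hsym : ∀ ω ω', w ω ω' = w ω' ω := fun ω ω' => by
    rw [hw, hw]
    by_cases hg : g ω = g ω'
    · rw [if_pos hg, if_pos hg.symm, hg, mul_comm]
    · rw [if_neg hg, if_neg fun h' => hg h'.symm]
  have hrow : ∀ ω, ∑ ω', w ω ω' = p ω := fun ω => by
    rcases (hp.nonneg ω).eq_or_lt with h0 | h0
    · rw [← h0]
      refine sum_eq_zero fun ω' _ => ?_
      rw [hw, ← h0, zero_mul, zero_div, ite_self]
    · have hpos := law_pos hp.nonneg g h0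
      have h1 : ∀ ω', w ω ω' = p ω / law p g (g ω) * (if g ω' = g ω then p ω' else 0) := by
        intro ω'
        rw [hw]
        by_cases hg : g ω = g ω'
        · rw [if_pos hg, if_pos hg.symm]
          ring
        · rw [if_neg hg, if_neg fun h' => hg h'.symm, mul_zero]
      rw [sum_congr rfl fun ω' _ => h1 ω', ← mul_sum]
      have h2 : (∑ ω', if g ω' = g ω then p ω' else 0) = law p g (g ω) := rfl
      rw [h2, div_mul_cancel₀ _ hpos.ne']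
  have h1 : ∀ ω ω', w ω ω' - (if B ω then w ω ω' else 0) - (if B ω' then w ω' ω else 0) ≤
      if g ω = g ω' ∧ A ω ω' then p ω * p ω' / law p g (g ω) else 0 := by
    intro ω ω'
    have hr : (0 : ℝ) ≤ if g ω = g ω' ∧ A ω ω' then p ω * p ω' / law p g (g ω) else 0 := by
      split_ifs
      · exact div_nonneg (mul_nonneg (hp.nonneg _) (hp.nonneg _)) (hl _)
      · exact le_rfl
    have ha : (0 : ℝ) ≤ if B ω then w ω ω' else 0 := by
      split_ifs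
      · exact hw0 _ _
      · exact le_rfl
    have hb : (0 : ℝ) ≤ if B ω' then w ω' ω else 0 := by
      split_ifs
      · exact hw0 _ _
      · exact le_rfl
    by_cases hB : B ω
    · rw [if_pos hB]
      linarith
    by_cases hB' : B ω'
    · rw [if_pos hB'] at hb ⊢
      rw [hsym ω' ω] at hb ⊢
      linarith
    rw [if_neg hB, if_neg hB', sub_zero, sub_zero, hw]
    by_cases hg : g ω = g ω'
    · rcases (hp.nonneg ω).eq_or_lt with h0 | h0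
      · rw [← h0, zero_mul, zero_div, ite_self, ite_self]
      rcases (hp.nonneg ω').eq_or_lt with h0' | h0'
      · rw [← h0', mul_zero, zero_div, ite_self, ite_self]
      rw [if_pos hg, if_pos ⟨hg, h ω ω' h0 h0' hg hB hB'⟩]
    · rw [if_neg hg, if_neg fun h' => hg h'.1]
  have h2 : ∑ ω, ∑ ω', (w ω ω' - (if B ω then w ω ω' else 0) - (if B ω' then w ω' ω else 0)) ≤
      P2 p g A := by
    unfold P2
    exact sum_le_sum fun ω _ => sum_le_sum fun ω' _ => h1 ω ω'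
  have h3 : ∑ ω, ∑ ω', (if B ω then w ω ω' else 0) = Pb p B := by
    unfold Pb
    refine sum_congr rfl fun ω _ => ?_
    by_cases hB : B ω
    · rw [if_pos hB, ← hrow ω]
      exact sum_congr rfl fun ω' _ => if_pos hB
    · rw [if_neg hB]
      exact sum_eq_zero fun ω' _ => if_neg hB
  have h4 : ∑ ω, ∑ ω', (if B ω' then w ω' ω else 0) = Pb p B := by
    rw [sum_comm]
    exact h3
  have h5 : ∑ ω, ∑ ω', w ω ω' = 1 := by
    rw [sum_congr rfl fun ω _ => hrow ω]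
    exact hp.sum_one
  have h6 : ∑ ω, ∑ ω', (w ω ω' - (if B ω then w ω ω' else 0) - (if B ω' then w ω' ω else 0)) =
      1 - Pb p B - Pb p B := by
    rw [← h5]
    conv_rhs => rw [← h3]
    rw [← sum_sub_distrib, h3, ← h4, ← sum_sub_distrib]
    refine sum_congr rfl fun ω _ => ?_
    rw [← sum_sub_distrib, ← sum_sub_distrib]
  linarith

theorem T_close {J m T T' : ℕ} (hm : m ≤ J) (h : T / 2 ^ (J - m) = T' / 2 ^ (J - m)) :
    |(T' : ℝ) / 2 ^ J - (T : ℝ) / 2 ^ J| ≤ 1 / 2 ^ m := by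
  have hpos : 0 < 2 ^ (J - m) := by positivity
  have h1 := Nat.div_add_mod T (2 ^ (J - m))
  have h2 := Nat.div_add_mod T' (2 ^ (J - m))
  have h3 := Nat.mod_lt T hpos
  have h4 := Nat.mod_lt T' hpos
  rw [h] at h1
  have h5 : |(T' : ℝ) - T| ≤ (2 : ℝ) ^ (J - m) := by
    rw [abs_le]
    have h6 : T ≤ T' + 2 ^ (J - m) := by omega
    have h7 : T' ≤ T + 2 ^ (J - m) := by omega
    have h8 : (T : ℝ) ≤ T' + 2 ^ (J - m) := by exact_mod_cast h6
    have h9 : (T' : ℝ) ≤ T + 2 ^ (J - m) := by exact_mod_cast h7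
    constructor <;> linarith
  have h6 : (2 : ℝ) ^ J = 2 ^ (J - m) * 2 ^ m := by
    rw [← pow_add, Nat.sub_add_cancel hm]
  rw [← sub_div, abs_div, abs_of_pos (by positivity : (0 : ℝ) < 2 ^ J), div_le_div_iff₀
    (by positivity) (by positivity), one_mul, h6]
  exact mul_le_mul_of_nonneg_right h5 (by positivity)

theorem unit_ge {g z k : ℕ} {s C₁ : ℝ} (h : |(g : ℝ) - s * (k * z)| ≤ C₁ * z) (hC : 0 ≤ C₁) :
    Real.exp (-(C₁ * z)) * rd z k ^ s ≤ 1 / (2 : ℝ) ^ g := by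
  have hl : Real.log 2 ≤ 1 := by
    have := Real.log_two_lt_d9
    linarith
  have hl0 : 0 ≤ Real.log 2 := Real.log_nonneg (by norm_num)
  have h4 : 1 / (2 : ℝ) ^ g = Real.exp (-(g * Real.log 2)) := by
    have h1 := Real.exp_nat_mul (Real.log 2) g
    rw [Real.exp_log (by norm_num)] at h1
    rw [← h1, one_div, Real.exp_neg]
  rw [rd_rpow, h4, ← Real.exp_add]
  refine Real.exp_le_exp.mpr ?_
  have h5 := (abs_le.mp h).2
  have h6 : ((g : ℝ) - s * (k * z)) * Real.log 2 ≤ C₁ * z * Real.log 2 :=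
    mul_le_mul_of_nonneg_right h5 hl0
  have h7 : C₁ * z * Real.log 2 ≤ C₁ * z * 1 :=
    mul_le_mul_of_nonneg_left hl (mul_nonneg hC (Nat.cast_nonneg _))
  linarith

/-- The precision of the new label. -/
theorem unit_ge' {g z k A : ℕ} {s C₁ : ℝ} (h : |(g : ℝ) - s * (k * z)| ≤ C₁ * z)
    (hC : 0 ≤ C₁) :
    Real.exp (-((C₁ + A) * z)) * rd z k ^ s ≤ 1 / (2 : ℝ) ^ (g + A * z) := by
  have h1 := unit_ge h hC
  have h2 : Real.exp (-(A * z : ℝ)) ≤ 1 / (2 : ℝ) ^ (A * z) := by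
    have h3 : (2 : ℝ) ^ (A * z) ≤ Real.exp (A * z) := by
      have := JBW.two_pow_le (A * z)
      exact_mod_cast this
    rw [Real.exp_neg, ← one_div]
    exact one_div_le_one_div_of_le (by positivity) h3
  have h4 : Real.exp (-((C₁ + A) * z)) = Real.exp (-(C₁ * z)) * Real.exp (-(A * z : ℝ)) := by
    rw [← Real.exp_add]
    congr 1
    ring
  have h5 : 1 / (2 : ℝ) ^ (g + A * z) = 1 / 2 ^ g * (1 / 2 ^ (A * z)) := by
    rw [pow_add, one_div_mul_one_div]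
  rw [h4, h5, mul_right_comm]
  exact mul_le_mul h1 h2 (Real.exp_pos _).le (by positivity)

/-! ### The facts of a good sample -/

/-- The facts of a good sample. -/
structure Sm (d : ℕ → ℕ) (n z v M : ℕ) (σ : ℕ → ℝ) (C₃ C₄ : ℝ) (K₁ : ℕ) (Φ : ℕ → ℕ → PN)
    (g : ℕ → ℕ → ℕ) : Prop where
  tri : ∀ k ≤ M + 1, TriN (Φ k)
  dl : Dl d z σ C₃ (M + 1) (n + 1) Φ
  gw : ∀ k ≤ M + 1, nrm d (rd z k) (gew d (d n) (bind₁ (adp d (Φ k)) (Φ k n))) ≤
    Real.exp (C₃ * z) * rd z k ^ σ n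
  bx : ∀ k, k = v ∨ k = M → ∀ (F : PN) (S : ℝ), 0 ≤ S → F.vars ⊆ range n →
    F.totalDegree ≤ K₁ → nrm d (rd z k) (bind₁ (adp d (Φ k)) F) ≤ S →
    ∀ b : ℕ → ℝ, Bx (g k) (Φ k) n b → |eval b F| ≤ Real.exp (C₄ * z) * S
  dg : ∀ k ≤ M + 1, ∀ i ≤ n, (Φ k i).totalDegree ≤ K₁ ∧
    (tinv (adp d (Φ k)) i).totalDegree ≤ K₁

theorem vars_sheet (hX : AdxStmt) (hd0 : d 0 = 1) (hd : ∀ i, 1 ≤ d i) {Φ : ℕ → PN}
    (hΦ : TriN Φ) (n : ℕ) : (X n - tinv (adp d Φ) n).vars ⊆ range n := by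
  have h1 : (X n - tinv (adp d Φ) n : PN) = -(tinv (adp d Φ) n - X n) := by ring
  rw [h1, vars_neg]
  exact vars_tinv hX hd0 hd hΦ n

theorem deg_sheet {K₁ n : ℕ} (hK : 1 ≤ K₁) {Θ : PN} (h : Θ.totalDegree ≤ K₁) :
    (X n - Θ : PN).totalDegree ≤ K₁ := by
  refine (totalDegree_sub _ _).trans (max_le ?_ h)
  rw [totalDegree_X]
  exact hK

/-- The sheet of the adapted coordinates and the label. -/
theorem Sm.sheet {n z v M K₁ : ℕ} {σ : ℕ → ℝ} {C₃ C₄ : ℝ} {Φ : ℕ → ℕ → PN} {g : ℕ → ℕ → ℕ}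
    (H : Sm d n z v M σ C₃ C₄ K₁ Φ g) (hX : AdxStmt) (hd0 : d 0 = 1) (hd : ∀ i, 1 ≤ d i)
    (hK : 1 ≤ K₁) {k : ℕ} (hk : k = v ∨ k = M) (hv : v ≤ M) (b : ℕ → ℝ)
    (hb : Bx (g k) (Φ k) n b) :
    |eval b (Φ k n) - (b n - ac d (Φ k) b n)| ≤
      Real.exp (C₄ * z) * (Real.exp (C₃ * z) * rd z k ^ σ n) := by
  classical
  have hkM : k ≤ M + 1 := by rcases hk with h | h <;> omega
  have hT := H.tri k hkM
  have h1 := H.bx k hk (Φ k n - (X n - tinv (adp d (Φ k)) n))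
    (Real.exp (C₃ * z) * rd z k ^ σ n)
    (mul_nonneg (Real.exp_pos _).le (Real.rpow_nonneg (rd_pos z k).le _))
    ((vars_sub_subset _).trans (Finset.union_subset (hT n) (vars_sheet hX hd0 hd hT n)))
    ((totalDegree_sub _ _).trans (max_le (H.dg k hkM n le_rfl).1
      (deg_sheet hK (H.dg k hkM n le_rfl).2)))
    (by rw [bind_sheet hX hd0 hd hT n]; exact H.gw k hkM) b hb
  rw [map_sub, map_sub, eval_X] at h1
  exact h1

theorem Sm.ac0 {n z v M K₁ : ℕ} {σ : ℕ → ℝ} {C₃ C₄ : ℝ} {Φ : ℕ → ℕ → PN} {g : ℕ → ℕ → ℕ}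
    (H : Sm d n z v M σ C₃ C₄ K₁ Φ g) (hX : AdxStmt) (hd0 : d 0 = 1) (hd : ∀ i, 1 ≤ d i)
    (hv : v ≤ M) (b : ℕ → ℝ) (hb : Bx (g v) (Φ v) n b) :
    ∀ j < n, |ac d (Φ v) b j| ≤ Real.exp (C₄ * z) * rd z v ^ d j := by
  classical
  intro j hj
  have hT := H.tri v (by omega)
  refine H.bx v (Or.inl rfl) (tinv (adp d (Φ v)) j) (rd z v ^ d j)
    (pow_pos (rd_pos z v) _).le ?_ (H.dg v (by omega) j hj.le).2 ?_ b hb
  · have h1 : tinv (adp d (Φ v)) j = (tinv (adp d (Φ v)) j - X j) + X j := by ring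
    rw [h1]
    refine (vars_add_subset _ _).trans (Finset.union_subset
      ((vars_tinv hX hd0 hd hT j).trans (range_subset_range.mpr hj.le)) ?_)
    rw [vars_X]
    exact Finset.singleton_subset_iff.mpr (mem_range.mpr hj)
  · rw [inv2 hX hd0 hd hT j, NRM.nrm_X]

/-- (1): the sheet of the level `M` at the sample. -/
theorem num1 {z v M₀ A : ℕ} {s C₁ C₃ C₄ dn : ℝ} (hdn : 1 ≤ dn) (hC₁ : 1 ≤ C₁)
    (hC₃ : 1 ≤ C₃) (hC₄ : 1 ≤ C₄) (hz : 1 ≤ z)
    (hM : (C₃ + C₄) * dn + 2 * C₁ + C₃ + C₄ + A + 3 ≤ (s - dn + 1) * M₀ * Real.log 2) :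
    Real.exp (C₁ * z) * rd z (v + M₀) ^ s +
      Real.exp (C₄ * z) * (Real.exp (C₃ * z) * rd z (v + M₀) ^ s) ≤
      Real.exp (-((C₁ + A) * z)) * rd z v ^ s := by
  have hz1 : (1 : ℝ) ≤ z := by exact_mod_cast hz
  have hA : (0 : ℝ) ≤ A := Nat.cast_nonneg _
  have hl0 : 0 ≤ Real.log 2 := Real.log_nonneg (by norm_num)
  rw [rd_rpow, rd_rpow, ← Real.exp_add, ← Real.exp_add, ← Real.exp_add, ← Real.exp_add]
  set Q := (v * z * Real.log 2) * s with hQ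
  have hML : (1 + C₁ + C₃ + C₄) + (C₁ + A) ≤ s * M₀ * Real.log 2 := by
    have h1 : (s - dn + 1) * M₀ * Real.log 2 ≤ s * M₀ * Real.log 2 := by
      refine mul_le_mul_of_nonneg_right (mul_le_mul_of_nonneg_right ?_ (Nat.cast_nonneg _)) hl0
      linarith
    have h2 : 0 ≤ (C₃ + C₄) * dn := by positivity
    linarith
  have hMz : ((1 + C₁ + C₃ + C₄) + (C₁ + A)) * z ≤ s * M₀ * Real.log 2 * z :=
    mul_le_mul_of_nonneg_right hML (by linarith)
  have e0 : -((((v + M₀ : ℕ) : ℝ)) * z * Real.log 2) * s = -Q - s * M₀ * Real.log 2 * z := by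
    rw [hQ]
    push_cast
    ring
  have e0' : -(v * z * Real.log 2) * s = -Q := by
    rw [hQ]
    ring
  rw [e0, e0']
  have h3 : Real.exp (C₁ * z + (-Q - s * M₀ * Real.log 2 * z)) ≤
      Real.exp (-((C₁ + A) * z) + -Q - z) := Real.exp_le_exp.mpr (by nlinarith)
  have h4 : Real.exp (C₄ * z + (C₃ * z + (-Q - s * M₀ * Real.log 2 * z))) ≤
      Real.exp (-((C₁ + A) * z) + -Q - z) := Real.exp_le_exp.mpr (by nlinarith)
  have h5 : Real.exp (-((C₁ + A) * z) + -Q - z) * 2 ≤ Real.exp (-((C₁ + A) * z) + -Q) := by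
    have h6 : Real.exp (-((C₁ + A) * z) + -Q) =
        Real.exp (-((C₁ + A) * z) + -Q - z) * Real.exp z := by
      rw [← Real.exp_add]
      congr 1
      ring
    rw [h6]
    refine mul_le_mul_of_nonneg_left ?_ (Real.exp_pos _).le
    have := Real.add_one_le_exp (z : ℝ)
    linarith
  linarith

/-- (3), the labels and the lines. -/
theorem num2 {z v M₀ A m : ℕ} {s C₁ C₃ C₄ : ℝ} (hm : 1 ≤ m) (hC₁ : 1 ≤ C₁)
    (hC₃ : 1 ≤ C₃) (hC₄ : 1 ≤ C₄) (hz : 1 ≤ z)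
    (hM : (C₃ + C₄) * m + 2 * C₁ + C₃ + C₄ + A + 3 ≤ (s - m + 1) * M₀ * Real.log 2) :
    3 * (Real.exp ((C₃ + C₄) * z) ^ (m - 1) * (Real.exp (C₃ * z) *
        (rd z v ^ ((m : ℝ) - 1) * rd z (v + M₀) ^ (s - m + 1)))) ≤
      Real.exp (-((C₁ + A) * z)) * rd z v ^ s := by
  have hz1 : (1 : ℝ) ≤ z := by exact_mod_cast hz
  have hA : (0 : ℝ) ≤ A := Nat.cast_nonneg _
  have hp : Real.exp ((C₃ + C₄) * z) ^ (m - 1) = Real.exp ((C₃ + C₄) * z * ((m : ℝ) - 1)) := by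
    have h1 := Real.exp_nat_mul ((C₃ + C₄) * z) (m - 1)
    rw [← h1]
    congr 1
    push_cast [Nat.cast_sub hm]
    ring
  have h3 : (3 : ℝ) ≤ Real.exp (2 * z) := by
    have := Real.add_one_le_exp (2 * (z : ℝ))
    linarith
  rw [hp, rd_rpow, rd_rpow, rd_rpow, ← Real.exp_add, ← Real.exp_add, ← Real.exp_add,
    ← Real.exp_add]
  refine (mul_le_mul_of_nonneg_right h3 (Real.exp_pos _).le).trans ?_
  rw [← Real.exp_add]
  refine Real.exp_le_exp.mpr ?_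
  have hMz : ((C₃ + C₄) * m + 2 * C₁ + C₃ + C₄ + A + 3) * z ≤
      (s - m + 1) * M₀ * Real.log 2 * z := mul_le_mul_of_nonneg_right hM (by linarith)
  have e1 : -(((v + M₀ : ℕ) : ℝ) * z * Real.log 2) * (s - m + 1) =
      -(v * z * Real.log 2) * (s - m + 1) - (s - m + 1) * M₀ * Real.log 2 * z := by
    push_cast
    ring
  rw [e1]
  nlinarith

/-- (3), the motion of the line. -/
theorem num3 {z v A m K₂ : ℕ} {s C₁ C₃ C₄ C₅ : ℝ} (hm : 1 ≤ m) (hC₁ : 1 ≤ C₁)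
    (hC₃ : 1 ≤ C₃) (hC₄ : 1 ≤ C₄) (hC₅ : 1 ≤ C₅) (hz : 1 ≤ z)
    (hv : (C₃ + C₄ + K₂ + C₅ * K₂ + 1) * m + C₁ + A + 2 ≤ (m - s) * v * Real.log 2) :
    3 * ((Real.exp ((C₃ + C₄) * z) + K₂ * Real.exp (C₅ * z) ^ K₂) * rd z v) ^ m ≤
      Real.exp (-((C₁ + A) * z)) * rd z v ^ s := by
  have hz1 : (1 : ℝ) ≤ z := by exact_mod_cast hz
  have hA : (0 : ℝ) ≤ A := Nat.cast_nonneg _
  have hK : (0 : ℝ) ≤ K₂ := Nat.cast_nonneg _
  have h3 : (3 : ℝ) ≤ Real.exp (2 * z) := by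
    have := Real.add_one_le_exp (2 * (z : ℝ))
    linarith
  have h1 : (K₂ : ℝ) * Real.exp (C₅ * z) ^ K₂ ≤ Real.exp ((K₂ + C₅ * K₂) * z) := by
    have h2 := Real.add_one_le_exp ((K₂ : ℝ) * z)
    have h4 : (K₂ : ℝ) ≤ Real.exp (K₂ * z) := by nlinarith
    have h5 : Real.exp (C₅ * z) ^ K₂ = Real.exp (C₅ * K₂ * z) := by
      rw [← Real.exp_nat_mul]
      congr 1
      ring
    rw [h5, add_mul, Real.exp_add]
    exact mul_le_mul_of_nonneg_right h4 (Real.exp_pos _).le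
  have h2 : Real.exp ((C₃ + C₄) * z) + K₂ * Real.exp (C₅ * z) ^ K₂ ≤
      Real.exp ((C₃ + C₄ + K₂ + C₅ * K₂ + 1) * z) := by
    have h6 : Real.exp ((C₃ + C₄ + K₂ + C₅ * K₂ + 1) * z) =
        Real.exp ((C₃ + C₄) * z) * Real.exp ((K₂ + C₅ * K₂) * z) * Real.exp z := by
      rw [← Real.exp_add, ← Real.exp_add]
      congr 1
      ring
    have h7 : 1 ≤ Real.exp ((C₃ + C₄) * z) := Real.one_le_exp (by positivity)
    have h8 : 1 ≤ Real.exp ((K₂ + C₅ * K₂) * z) := Real.one_le_exp (by positivity)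
    have h9 : 2 ≤ Real.exp (z : ℝ) := by
      have := Real.add_one_le_exp (z : ℝ)
      linarith
    rw [h6]
    have h10 : Real.exp ((C₃ + C₄) * z) + Real.exp ((K₂ + C₅ * K₂) * z) ≤
        Real.exp ((C₃ + C₄) * z) * Real.exp ((K₂ + C₅ * K₂) * z) * 2 := by nlinarith
    have h11 : Real.exp ((C₃ + C₄) * z) * Real.exp ((K₂ + C₅ * K₂) * z) * 2 ≤
        Real.exp ((C₃ + C₄) * z) * Real.exp ((K₂ + C₅ * K₂) * z) * Real.exp z :=
      mul_le_mul_of_nonneg_left h9 (by positivity)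
    linarith
  have h4 : ((Real.exp ((C₃ + C₄) * z) + K₂ * Real.exp (C₅ * z) ^ K₂) * rd z v) ^ m ≤
      (Real.exp ((C₃ + C₄ + K₂ + C₅ * K₂ + 1) * z) * rd z v) ^ m :=
    pow_le_pow_left₀ (mul_nonneg (by positivity) (rd_pos z v).le)
      (mul_le_mul_of_nonneg_right h2 (rd_pos z v).le) m
  refine (mul_le_mul_of_nonneg_left h4 (by norm_num)).trans ?_
  refine (mul_le_mul_of_nonneg_right h3
    (pow_nonneg (mul_nonneg (Real.exp_pos _).le (rd_pos z v).le) _)).trans ?_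
  rw [rd_rpow, mul_pow, rd_pow, ← Real.exp_nat_mul, ← Real.exp_add, ← Real.exp_add,
    ← Real.exp_add]
  refine Real.exp_le_exp.mpr ?_
  have hvz : ((C₃ + C₄ + K₂ + C₅ * K₂ + 1) * m + C₁ + A + 2) * z ≤
      (m - s) * v * Real.log 2 * z := mul_le_mul_of_nonneg_right hv (by linarith)
  nlinarith

/-- (4). -/
theorem num4 {z v m : ℕ} {s C₁ C₃ C₄ : ℝ} (hm : 1 ≤ m) (hC₁ : 1 ≤ C₁)
    (hC₃ : 1 ≤ C₃) (hC₄ : 1 ≤ C₄) (hz : 1 ≤ z) :
    Real.exp ((C₃ + C₄) * z) ^ (m - 1) * (Real.exp (C₃ * z) *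
        (rd z v ^ ((m : ℝ) - 1) * rd z v ^ (s - m + 1))) +
      Real.exp (C₄ * z) * (Real.exp (C₃ * z) * rd z v ^ s) ≤
      Real.exp (((C₃ + C₄) * m + C₃ + 1 + C₁) * z) * (Real.exp (-(C₁ * z)) * rd z v ^ s) := by
  have hz1 : (1 : ℝ) ≤ z := by exact_mod_cast hz
  have hm1 : (1 : ℝ) ≤ m := by exact_mod_cast hm
  have hp : Real.exp ((C₃ + C₄) * z) ^ (m - 1) = Real.exp ((C₃ + C₄) * z * ((m : ℝ) - 1)) := by
    have h1 := Real.exp_nat_mul ((C₃ + C₄) * z) (m - 1)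
    rw [← h1]
    congr 1
    push_cast [Nat.cast_sub hm]
    ring
  have hr : rd z v ^ ((m : ℝ) - 1) * rd z v ^ (s - m + 1) = rd z v ^ s := by
    rw [← Real.rpow_add (rd_pos z v)]
    congr 1
    ring
  have hs : 0 ≤ rd z v ^ s := Real.rpow_nonneg (rd_pos z v).le _
  rw [hp, hr, ← mul_assoc, ← mul_assoc, ← mul_assoc, ← Real.exp_add, ← Real.exp_add,
    ← Real.exp_add, ← add_mul]
  refine mul_le_mul_of_nonneg_right ?_ hs
  have e1 : (((C₃ + C₄) * m + C₃ + 1 + C₁) * z + -(C₁ * z)) =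
      ((C₃ + C₄) * m + C₃) * z + z := by ring
  rw [e1, Real.exp_add (((C₃ + C₄) * m + C₃) * z) z]
  have h1 : Real.exp ((C₃ + C₄) * z * ((m : ℝ) - 1) + C₃ * z) ≤
      Real.exp (((C₃ + C₄) * m + C₃) * z) := Real.exp_le_exp.mpr (by nlinarith)
  have h2 : Real.exp (C₄ * z + C₃ * z) ≤ Real.exp (((C₃ + C₄) * m + C₃) * z) := by
    refine Real.exp_le_exp.mpr ?_
    have h3 : (C₃ + C₄) * 1 ≤ (C₃ + C₄) * m := mul_le_mul_of_nonneg_left hm1 (by linarith)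
    nlinarith
  have h9 : 2 ≤ Real.exp (z : ℝ) := by
    have := Real.add_one_le_exp (z : ℝ)
    linarith
  have h10 : Real.exp (((C₃ + C₄) * m + C₃) * z) * 2 ≤
      Real.exp (((C₃ + C₄) * m + C₃) * z) * Real.exp z :=
    mul_le_mul_of_nonneg_left h9 (Real.exp_pos _).le
  linarith

/-! ### The theorem -/

theorem slp_upd {n : ℕ} {s : ℝ} (hd0 : d 0 = 1) (hd : ∀ i, 1 ≤ d i)
    (h1 : (d n : ℝ) - 1 < s) (h2 : s < d n) :
    Slp d (Function.update (fun i => (d i : ℝ)) n s) n where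
  d_zero := hd0
  d_pos := hd
  int := fun i hi => by rw [Function.update_of_ne hi.ne]
  le := by rw [Function.update_self]; exact h2.le
  lt := by rw [Function.update_self]; exact h1

/-- **Row 121 NONW.** -/
theorem nonw_of (hX : AdxStmt) (hG : DgbStmt) (hO : OdeStmt) (hL : LadStmt) (hB : BxnStmt)
    (hF : FlbStmt) (hJ : JbwStmt) (hT : JtwStmt) : NonwStmt := by
  classical
  intro n K A d C₁ s hn hd0 hd hC₁ hs1 hs2
  have hS := slp_upd hd0 hd hs1 hs2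
  have hσn : Function.update (fun i => (d i : ℝ)) n s n = s := Function.update_self _ _ _
  generalize hσ : Function.update (fun i => (d i : ℝ)) n s = σ at hS hσn ⊢
  obtain ⟨K₀, hK₀⟩ := hG n K d hd0 hd
  obtain ⟨K₁, hK₁⟩ : ∃ K₁ : ℕ, K₁ = max K K₀ + 1 := ⟨_, rfl⟩
  have hKK : K ≤ K₁ := by rw [hK₁]; exact (le_max_left _ _).trans (Nat.le_succ _)
  have hKK₀ : K₀ ≤ K₁ := by rw [hK₁]; exact (le_max_right _ _).trans (Nat.le_succ _)
  have hK1 : 1 ≤ K₁ := by rw [hK₁]; exact Nat.succ_le_succ (Nat.zero_le _)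
  obtain ⟨C₂, hC₂, hJ⟩ := hJ n K d σ C₁ hn hS hC₁
  obtain ⟨C₃, hC₃, hL⟩ := hL n K₁ d σ C₂ hS hC₂
  obtain ⟨C₄, hC₄, hB⟩ := hB n K₁ d σ C₁ C₂ hS hC₁ hC₂
  obtain ⟨C₅, hC₅, hT⟩ := hT n K d σ C₁ hn hS hC₁
  obtain ⟨K₂, hF⟩ := hF n K d hd0 hd
  have hlog : 0 < Real.log 2 := Real.log_pos (by norm_num)
  have hm : 1 ≤ d n := hd n
  have hm1 : (1 : ℝ) ≤ d n := by exact_mod_cast hm
  obtain ⟨v, hv⟩ : ∃ v : ℕ, (C₃ + C₄ + K₂ + C₅ * K₂ + 1) * d n + C₁ + A + 2 ≤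
      (d n - s) * v * Real.log 2 := by
    obtain ⟨v, hv⟩ := exists_nat_ge
      (((C₃ + C₄ + K₂ + C₅ * K₂ + 1) * d n + C₁ + A + 2) / ((d n - s) * Real.log 2))
    refine ⟨v, ?_⟩
    rw [div_le_iff₀ (mul_pos (sub_pos.mpr hs2) hlog)] at hv
    linarith
  obtain ⟨M₀, hM₀⟩ : ∃ M₀ : ℕ, (C₃ + C₄) * d n + 2 * C₁ + C₃ + C₄ + A + 3 ≤
      (s - d n + 1) * M₀ * Real.log 2 := by
    obtain ⟨M₀, hM₀⟩ := exists_nat_ge
      (((C₃ + C₄) * d n + 2 * C₁ + C₃ + C₄ + A + 3) / ((s - d n + 1) * Real.log 2))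
    refine ⟨M₀, ?_⟩
    rw [div_le_iff₀ (mul_pos (by linarith) hlog)] at hM₀
    linarith
  obtain ⟨M, hM⟩ : ∃ M : ℕ, M = v + M₀ := ⟨_, rfl⟩
  have hvM : v ≤ M := by omega
  obtain ⟨z₁, hL⟩ := hL (M + 1)
  obtain ⟨z₂, hBv⟩ := hB v
  obtain ⟨z₃, hBM⟩ := hB M
  obtain ⟨κ₁, hκ₁, z₄, hJ⟩ := hJ M (1 / 8) (by norm_num)
  obtain ⟨κ₂, hκ₂, z₅, hT⟩ := hT M (1 / 8) (by norm_num)
  refine ⟨v, M, K₁, (C₃ + C₄) * d n + C₃ + 1 + C₁, min κ₁ κ₂, z₁ + z₂ + z₃ + z₄ + z₅ + 1, hvM,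
    lt_min hκ₁ hκ₂, fun J z D q hz hOk => ?_⟩
  have hz1 : 1 ≤ z := by omega
  have hJ' := hJ J z _ D q (by omega) (min_le_left _ _) hOk
  have hT' := hT J z _ D q (by omega) (min_le_right _ _) hOk
  have hq := hOk.isLaw.nonneg
  -- the facts of a good sample
  have hSm : ∀ ω, 0 < q ω → D.JG d z σ C₂ M n ω →
      Sm d n z v M σ C₃ C₄ K₁ (D.Φs M ω) D.g := by
    intro ω hω hg
    have hlb := lbase_Φs hOk ω hω
    have hlb₁ : LBase K₁ (n + 1) (M + 1) (D.Φs M ω) :=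
      ⟨fun k hk i hi => (hlb.deg k hk i hi).trans hKK, hlb.tri, hlb.zero, hlb.base⟩
    have hLL := hL z (D.Φs M ω) (n + 1) (by omega) le_rfl hlb₁ hg
    have hres : ∀ N ≤ M + 1, LBase K₁ n N (D.Φs M ω) ∧ Lad d z σ C₂ N n (D.Φs M ω) :=
      fun N hN => ⟨⟨fun k hk i hi => hlb₁.deg k (hk.trans hN) i (by omega),
        fun k hk => hlb₁.tri k (hk.trans hN), fun i h1 h2 => hlb₁.zero i h1 (by omega),
        hlb₁.base⟩, fun k hk i hi => hg k (hk.trans_le hN) i (by omega)⟩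
    have hgg : ∀ k ≤ M, ∀ i < n, |(D.g k i : ℝ) - d i * (k * z)| ≤ C₁ * z := fun k hk i hi => by
      have h1 := hOk.hom k hk i hi.le
      rwa [hS.int i hi] at h1
    refine ⟨fun k hk => hlb.tri k hk, fun k hk k' hk' i hi => hLL.2 k hk k' hk' i hi,
      fun k hk => (hLL.1 k hk n (by omega)).2, ?_, fun k hk i hi => ⟨hlb₁.deg k hk i (by omega),
        ((hK₀ (D.Φs M ω k) (fun _ => 0) (hlb.tri k hk)
          (fun i hi => hlb.deg k hk i (by omega)) i hi).2.1).trans hKK₀⟩⟩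
    intro k hk F S hS0 hvF hdF hF' b hb
    rcases hk with hk | hk
    · subst hk
      exact (hBv z (D.Φs M ω) n (D.g k) (by omega) le_rfl (hres k (by omega)).1
        (hres k (by omega)).2 (hgg k hvM) F S hS0 hvF hdF).2 hF' b hb
    · subst hk
      exact (hBM z (D.Φs k ω) n (D.g k) (by omega) le_rfl (hres k (by omega)).1
        (hres k (by omega)).2 (hgg k le_rfl) F S hS0 hvF hdF).2 hF' b hb
  -- the systems of the levels of the ladder
  have hΦk : ∀ (ω : D.Ω) (k : ℕ), k ≤ M → D.Φs M ω k = D.P k (D.c k ω) := fun ω k hk => by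
    unfold NDat.Φs
    rw [if_pos hk]
  have hΦM : ∀ ω : D.Ω, D.Φs M ω (M + 1) = atT (D.X ω 0) (D.R (D.ln ω)) := fun ω => by
    unfold NDat.Φs NDat.Rt
    rw [if_neg (by omega)]
  have hGe : ∀ (ω : D.Ω) (b : ℕ → ℝ),
      eval b (X n - tinv (adp d (D.P M (D.cs M ω M))) n) = b n - ac d (D.Φs M ω M) b n := by
    intro ω b
    have h1 : D.cs M ω M = D.c M ω := by
      unfold NDat.cs
      rw [min_self]
    rw [h1, hΦk ω M le_rfl, map_sub, eval_X]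
    rfl
  have hgn : ∀ k ≤ M, |(D.g k n : ℝ) - s * (k * z)| ≤ C₁ * z := fun k hk => by
    have h1 := hOk.hom k hk n le_rfl
    rwa [hσn] at h1
  have hC₁0 : 0 ≤ C₁ := by linarith
  have hunit := unit_ge' (A := A) (hgn v hvM) hC₁0
  -- (1)
  have hone : ∀ ω, 0 < q ω → D.JG d z σ C₂ M n ω →
      |D.X ω n - eval (D.X ω) (X n - tinv (adp d (D.P M (D.cs M ω M))) n)| ≤
        1 / 2 ^ (D.g v n + A * z) := by
    intro ω hω hg
    have hbx : Bx (D.g M) (D.Φs M ω M) n (D.X ω) := fun i hi => by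
      have h1 := hOk.hgt M le_rfl ω hω i hi.le
      unfold NDat.rh at h1
      rwa [← hΦk ω M le_rfl] at h1
    have h1 := (hSm ω hω hg).sheet hX hd0 hd hK1 (Or.inr rfl) hvM (D.X ω) hbx
    have h2 := hOk.hgt M le_rfl ω hω n le_rfl
    unfold NDat.rh at h2
    rw [← hΦk ω M le_rfl] at h2
    have h3 := h2.trans (unit_le (hgn M le_rfl) hC₁0)
    rw [hσn] at h1
    have h4 := num1 (z := z) (v := v) (M₀ := M₀) (A := A) (s := s) (dn := d n) hm1 hC₁ hC₃ hC₄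
      hz1 hM₀
    rw [← hM] at h4
    rw [hGe]
    have h5 := abs_add_le (D.X ω n - eval (D.X ω) (D.Φs M ω M n))
      (eval (D.X ω) (D.Φs M ω M n) - (D.X ω n - ac d (D.Φs M ω M) (D.X ω) n))
    rw [sub_add_sub_cancel] at h5
    linarith
  refine ⟨fun x => X n - tinv (adp d (D.P M (x M))) n, fun x => ?_, fun x => ?_, ?_⟩
  · exact deg_sheet hK1 (((hK₀ (D.P M (x M)) (fun _ => 0) (hOk.P_tri _ _)
      (fun i _ => hOk.P_deg _ _ _) n le_rfl).2.1).trans hKK₀)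
  · exact vars_sheet hX hd0 hd (hOk.P_tri _ _) n
  have hbad : Pb q (fun ω => ¬ D.JG d z σ C₂ M n ω ∨ ¬ D.LG d z C₅ n (D.ln ω)) ≤ 1 / 4 := by
    have h1 : Pb q (fun ω => ¬ D.JG d z σ C₂ M n ω ∨ ¬ D.LG d z C₅ n (D.ln ω)) ≤
        Pb q (fun ω => ¬ D.JG d z σ C₂ M n ω) + Pb q (fun ω => ¬ D.LG d z C₅ n (D.ln ω)) := by
      unfold Pb
      rw [← sum_add_distrib]
      refine sum_le_sum fun w _ => ?_
      have := hq w
      by_cases h1 : ¬ D.JG d z σ C₂ M n w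
      · rw [if_pos (Or.inl h1), if_pos h1]
        split_ifs <;> linarith
      · by_cases h2 : ¬ D.LG d z C₅ n (D.ln w)
        · rw [if_pos (Or.inr h2), if_neg h1, if_pos h2]
          linarith
        · rw [if_neg fun h => h.elim h1 h2, if_neg h1, if_neg h2]
          linarith
    linarith
  refine le_trans ?_ (P2_ge hOk.isLaw (D.wn J (v * z)) _
    (fun ω => ¬ D.JG d z σ C₂ M n ω ∨ ¬ D.LG d z C₅ n (D.ln ω)) ?_)
  · linarith
  intro ω ω' hω hω' hw hb hb'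
  have hg : D.JG d z σ C₂ M n ω := by
    by_contra h
    exact hb (Or.inl h)
  have hlg : D.LG d z C₅ n (D.ln ω) := by
    by_contra h
    exact hb (Or.inr h)
  have hg' : D.JG d z σ C₂ M n ω' := by
    by_contra h
    exact hb' (Or.inl h)
  have H := hSm ω hω hg
  have H' := hSm ω' hω' hg'
  have hc : D.c v ω = D.c v ω' := hOk.c_wn v hvM ω ω' hω hω' hw
  have hln : D.ln ω = D.ln ω' := congrArg Prod.fst hw
  have htm : D.T ω / 2 ^ (J - v * z) = D.T ω' / 2 ^ (J - v * z) := congrArg Prod.snd hw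
  have hvJ : v * z ≤ J := (Nat.mul_le_mul_right z (by omega)).trans hOk.top
  refine ⟨hone ω hω hg, hone ω' hω' hg', fun b hbx => ?_, fun b hbx => ?_⟩
  · -- (3)
    have hbv : Bx (D.g v) (D.Φs M ω v) n b := by
      rw [hΦk ω v hvM]
      exact hbx
    have hbv' : Bx (D.g v) (D.Φs M ω' v) n b := by
      rw [hΦk ω' v hvM, ← hc]
      exact hbx
    have hac := H.ac0 hX hd0 hd hvM b hbv
    have hac' := H'.ac0 hX hd0 hd hvM b hbv'
    have h1 := sheet_sub hX hS hC₃ hC₄ hz1 H.tri H.dl b hac hvM (Nat.le_succ M) le_rfl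
    have h1' := sheet_sub hX hS hC₃ hC₄ hz1 H'.tri H'.dl b hac' hvM (Nat.le_succ M) le_rfl
    have h2 := ac_le hX hS hC₃ hC₄ hz1 H.tri H.dl b hac (k := M + 1) (by omega) le_rfl
    rw [hΦM ω] at h2 h1
    rw [hΦM ω', ← hln] at h1'
    have htri : TriN (atT 0 (D.R (D.ln ω))) := by
      intro i
      rcases Nat.eq_zero_or_pos i with hi | hi
      · subst hi
        unfold atT
        rw [Function.update_self, vars_C]
        exact Finset.empty_subset _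
      · unfold atT
        rw [Function.update_of_ne hi.ne']
        exact hOk.R_tri _ _
    have hdeg : ∀ i ≤ n, (atT 0 (D.R (D.ln ω)) i).totalDegree ≤ K := by
      intro i _
      rcases Nat.eq_zero_or_pos i with hi | hi
      · subst hi
        unfold atT
        rw [Function.update_self, totalDegree_C]
        exact Nat.zero_le _
      · unfold atT
        rw [Function.update_of_ne hi.ne']
        exact hOk.R_deg _ _
    have hX01 : ∀ ω, D.X ω 0 ∈ Set.Icc (0 : ℝ) 1 := fun ω => by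
      rw [hOk.X_zero]
      refine ⟨by positivity, ?_⟩
      rw [div_le_one (by positivity)]
      exact_mod_cast (hOk.T_lt ω).le
    have hfl := (hF (D.R (D.ln ω)) (Real.exp (C₅ * z)) htri hdeg
      (Real.one_le_exp (by positivity)) hlg).1
    have h3 : |D.X ω' 0 - D.X ω 0| ≤ rd z v := by
      rw [hOk.X_zero, hOk.X_zero]
      exact T_close hvJ htm
    have h4 := line_ac hX hO hd0 hd htri (rd_pos z v) h3
      (Real.one_le_exp (by positivity) : 1 ≤ Real.exp ((C₃ + C₄) * z))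
      (by positivity : (0 : ℝ) ≤ K₂ * Real.exp (C₅ * z) ^ K₂)
      (fun u hu i hi => hfl u ((convex_Icc (0 : ℝ) 1).ordConnected.uIcc_subset
        (hX01 ω) (hX01 ω') hu) i hi) h2
    have n2 := num2 (z := z) (v := v) (M₀ := M₀) (A := A) (m := d n) (s := s) hm hC₁ hC₃ hC₄
      hz1 hM₀
    have n3 := num3 (z := z) (v := v) (A := A) (m := d n) (K₂ := K₂) (s := s) hm hC₁ hC₃ hC₄
      hC₅ hz1 hv
    rw [← hM] at n2
    rw [hσn] at h1 h1'
    rw [hGe, hGe]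
    have e1 : b n - ac d (D.Φs M ω' M) b n - (b n - ac d (D.Φs M ω M) b n) =
        (ac d (D.Φs M ω M) b n - ac d (atT (D.X ω 0) (D.R (D.ln ω))) b n) -
        (ac d (atT (D.X ω' 0) (D.R (D.ln ω))) b n - ac d (atT (D.X ω 0) (D.R (D.ln ω))) b n) -
        (ac d (D.Φs M ω' M) b n - ac d (atT (D.X ω' 0) (D.R (D.ln ω))) b n) := by ring
    rw [e1]
    refine (abs_sub _ _).trans ?_
    have h5 := abs_sub
      (ac d (D.Φs M ω M) b n - ac d (atT (D.X ω 0) (D.R (D.ln ω))) b n)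
      (ac d (atT (D.X ω' 0) (D.R (D.ln ω))) b n - ac d (atT (D.X ω 0) (D.R (D.ln ω))) b n)
    linarith
  · -- (4)
    have hbv : Bx (D.g v) (D.Φs M ω v) n b := by
      rw [hΦk ω v hvM]
      exact hbx
    have hac := H.ac0 hX hd0 hd hvM b hbv
    have h1 := sheet_sub hX hS hC₃ hC₄ hz1 H.tri H.dl b hac (k := M) (k' := v) le_rfl hvM
      (Nat.le_succ M)
    have h2 := H.sheet hX hd0 hd hK1 (Or.inl rfl) hvM b hbv
    rw [hσn] at h1 h2
    rw [hΦk ω v hvM] at h2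
    have n4 := num4 (z := z) (v := v) (m := d n) (s := s) hm hC₁ hC₃ hC₄ hz1
    have h3 : Real.exp (((C₃ + C₄) * d n + C₃ + 1 + C₁) * z) *
        (Real.exp (-(C₁ * z)) * rd z v ^ s) ≤
        Real.exp (((C₃ + C₄) * d n + C₃ + 1 + C₁) * z) / 2 ^ D.g v n := by
      rw [div_eq_mul_one_div]
      exact mul_le_mul_of_nonneg_left (unit_ge (hgn v hvM) hC₁0) (Real.exp_pos _).le
    rw [hGe]
    rw [hΦk ω v hvM] at h1
    have e1 : b n - ac d (D.Φs M ω M) b n - eval b (D.P v (D.c v ω) n) =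
        (ac d (D.P v (D.c v ω)) b n - ac d (D.Φs M ω M) b n) -
        (eval b (D.P v (D.c v ω) n) - (b n - ac d (D.P v (D.c v ω)) b n)) := by ring
    rw [e1]
    refine (abs_sub _ _).trans ?_
    linarith

end Pool.STAT.Nonw
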