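import Pool.Agent.H64.STAT.Rows
import Pool.Agent.H45.KAL.CIL

/-!
# The weighted core, row POP: choice of a label for every block

Random choice: `h b` is `h₀ b` or `h₁ b`, where `h₀ b` is a value of `ι` given `x = b` and `h₁ b` a
value of `ι'` given `x' = b`. All choices are made by averaging.
-/

set_option autoImplicit false

namespace Pool.Pop20

open Finset
open Pool.Agent.H49.Ent Pool.Agent.H32.Dense Pool.STK Pool.KS3
open Pool.BFL (Pb)

section copy

variable {W S T U : Type} [Fintype W] {q : W → ℝ}

open Classical in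
/-- Conditional independence: the expectation of a nonnegative function is at most the expectation
over a copy. -/
theorem copy_le (hq : IsLaw q) {A : W → S} {B : W → T} {Z : W → U} (h : CI q A B Z)
    (φ : S → T → U → ℝ) (hφ : ∀ a b z, 0 ≤ φ a b z) :
    ∑ w, q w * φ (A w) (B w) (Z w) ≤
      ∑ w, ∑ w', q w * ((if Z w' = Z w then q w' else 0) / law q Z (Z w) *
        φ (A w') (B w) (Z w)) := by
  classical
  have hq0 := hq.nonneg
  set Tr : W → S × (T × U) := fun w => (A w, (B w, Z w)) with hTr
  set Im : Finset (S × (T × U)) := univ.image Tr with hIm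
  have e1 : ∑ w, q w * φ (A w) (B w) (Z w) =
      ∑ s ∈ Im, law q Tr s * φ s.1 s.2.1 s.2.2 := by
    unfold law
    simp_rw [Finset.sum_mul]
    rw [Finset.sum_comm]
    refine Finset.sum_congr rfl fun w _ => ?_
    rw [Finset.sum_eq_single (Tr w)]
    · rw [if_pos rfl]
    · intro s _ hs
      rw [if_neg (Ne.symm hs), zero_mul]
    · intro hs
      exact absurd (Finset.mem_image_of_mem _ (Finset.mem_univ w)) hs
  rw [e1]
  have e2 : ∀ s ∈ Im, law q Tr s * φ s.1 s.2.1 s.2.2 ≤
      ∑ w, ∑ w', (if B w = s.2.1 ∧ Z w = s.2.2 ∧ A w' = s.1 ∧ Z w' = s.2.2 then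
        q w * (q w' / law q Z s.2.2 * φ s.1 s.2.1 s.2.2) else 0) := by
    rintro ⟨a, b, z⟩ _
    show law q Tr (a, (b, z)) * φ a b z ≤ ∑ w, ∑ w', (if B w = b ∧ Z w = z ∧ A w' = a ∧ Z w' = z
      then q w * (q w' / law q Z z * φ a b z) else 0)
    have k1 := CI.law_le hq h a b z
    have k2 : law q (fun w => (A w, Z w)) (a, z) * law q (fun w => (B w, Z w)) (b, z) =
        ∑ w, ∑ w', (if B w = b ∧ Z w = z ∧ A w' = a ∧ Z w' = z then q w * q w' else 0) := by
      unfold law
      rw [mul_comm, Finset.sum_mul_sum]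
      refine Finset.sum_congr rfl fun w _ => Finset.sum_congr rfl fun w' _ => ?_
      beta_reduce
      by_cases c1 : (B w, Z w) = (b, z)
      · rw [if_pos c1]
        have d1 := Prod.ext_iff.1 c1
        by_cases c2 : (A w', Z w') = (a, z)
        · have d2 := Prod.ext_iff.1 c2
          rw [if_pos c2, if_pos ⟨d1.1, d1.2, d2.1, d2.2⟩]
        · rw [if_neg c2, mul_zero, if_neg (fun e => c2 (Prod.ext e.2.2.1 e.2.2.2))]
      · rw [if_neg c1, zero_mul, if_neg (fun e => c1 (Prod.ext e.1 e.2.1))]
    have k3 : ∑ w, ∑ w', (if B w = b ∧ Z w = z ∧ A w' = a ∧ Z w' = z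
        then q w * (q w' / law q Z z * φ a b z) else 0) =
        (∑ w, ∑ w', (if B w = b ∧ Z w = z ∧ A w' = a ∧ Z w' = z then q w * q w' else 0)) /
          law q Z z * φ a b z := by
      rw [Finset.sum_div, Finset.sum_mul]
      refine Finset.sum_congr rfl fun w _ => ?_
      rw [Finset.sum_div, Finset.sum_mul]
      refine Finset.sum_congr rfl fun w' _ => ?_
      split_ifs
      · ring
      · ring
    rw [k3, ← k2]
    refine mul_le_mul_of_nonneg_right ?_ (hφ a b z)
    have k4 := law_nonneg hq0 Z z
    rcases k4.eq_or_lt with h0 | h0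
    · have k5 : law q Tr (a, (b, z)) = 0 := by
        refine le_antisymm ?_ (law_nonneg hq0 _ _)
        rw [h0]
        unfold law
        refine Finset.sum_le_sum fun w _ => ?_
        by_cases c1 : Tr w = (a, (b, z))
        · rw [if_pos c1, if_pos (Prod.ext_iff.1 (Prod.ext_iff.1 c1).2).2]
        · rw [if_neg c1]
          split_ifs
          · exact hq0 w
          · exact le_rfl
      rw [k5, ← h0, div_zero]
    · rw [le_div_iff₀ h0]
      exact k1
  refine (Finset.sum_le_sum e2).trans ?_
  rw [Finset.sum_comm]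
  refine Finset.sum_le_sum fun w _ => ?_
  rw [Finset.sum_comm]
  refine Finset.sum_le_sum fun w' _ => ?_
  by_cases c1 : Z w' = Z w
  · rw [if_pos c1]
    have hR : 0 ≤ q w * (q w' / law q Z (Z w) * φ (A w') (B w) (Z w)) :=
      mul_nonneg (hq0 w) (mul_nonneg (div_nonneg (hq0 w') (law_nonneg hq0 _ _)) (hφ _ _ _))
    by_cases c2 : (A w', (B w, Z w)) ∈ Im
    · rw [Finset.sum_eq_single (A w', (B w, Z w))]
      · rw [if_pos ⟨rfl, rfl, rfl, c1⟩]
      · intro s _ hs
        rw [if_neg]
        rintro ⟨d1, d2, d3, _⟩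
        exact hs (Prod.ext d3.symm (Prod.ext d1.symm d2.symm))
      · intro hs
        exact absurd c2 hs
    · rw [Finset.sum_eq_zero]
      · exact hR
      · intro s hs
        rw [if_neg]
        rintro ⟨d1, d2, d3, _⟩
        exact c2 (by
          have : (A w', (B w, Z w)) = s := Prod.ext d3 (Prod.ext d1 d2)
          rw [this]
          exact hs)
  · rw [if_neg c1, zero_div, zero_mul, mul_zero]
    refine le_of_eq (Finset.sum_eq_zero fun s _ => ?_)
    rw [if_neg]
    rintro ⟨_, d2, _, d4⟩
    exact c1 (d4.trans d2.symm)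

end copy

section pop

variable {W B I O : Type} [Fintype W] {q : W → ℝ}

open Classical in
/-- The probability of the relation for a copy of the label. -/
noncomputable def Gf (q : W → ℝ) (x : W → B) (ι : W → I) (R : B → I → O → Prop) (b : B) (o : O) :
    ℝ :=
  ∑ w', (if x w' = b then q w' else 0) / law q x b * (if R b (ι w') o then 1 else 0)

theorem Gf_nonneg (hq : IsLaw q) (x : W → B) (ι : W → I) (R : B → I → O → Prop) (b : B) (o : O) :
    0 ≤ Gf q x ι R b o := by
  classical
  have hq0 := hq.nonneg
  unfold Gf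
  refine Finset.sum_nonneg fun w _ => mul_nonneg (div_nonneg ?_ (law_nonneg hq0 _ _)) ?_
  · split_ifs
    · exact hq0 w
    · exact le_rfl
  · split_ifs
    · exact zero_le_one
    · exact le_rfl

/-- The relation holds rarely when the probability of the copies is small. -/
theorem rare (hq : IsLaw q) {x : W → B} {ι : W → I} {o : W → O} (h : CI q ι o x)
    (R : B → I → O → Prop) {t : ℝ} (ht : 0 ≤ t) :
    Pb q (fun w => R (x w) (ι w) (o w) ∧ Gf q x ι R (x w) (o w) < t) ≤ t := by
  classical
  have hq0 := hq.nonneg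
  have h1 := copy_le hq h (fun i o z => if R z i o ∧ Gf q x ι R z o < t then (1 : ℝ) else 0)
    (fun _ _ _ => by
      split_ifs
      · exact zero_le_one
      · exact le_rfl)
  have h2 : Pb q (fun w => R (x w) (ι w) (o w) ∧ Gf q x ι R (x w) (o w) < t) =
      ∑ w, q w * (if R (x w) (ι w) (o w) ∧ Gf q x ι R (x w) (o w) < t then (1 : ℝ) else 0) := by
    unfold Pb
    refine Finset.sum_congr rfl fun w _ => ?_
    by_cases c : R (x w) (ι w) (o w) ∧ Gf q x ι R (x w) (o w) < t
    · rw [if_pos c, if_pos c, mul_one]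
    · rw [if_neg c, if_neg c, mul_zero]
  rw [h2]
  refine h1.trans ?_
  calc ∑ w, ∑ w', q w * ((if x w' = x w then q w' else 0) / law q x (x w) *
        (if R (x w) (ι w') (o w) ∧ Gf q x ι R (x w) (o w) < t then (1 : ℝ) else 0))
      ≤ ∑ w, q w * t := by
        refine Finset.sum_le_sum fun w _ => ?_
        rw [← Finset.mul_sum]
        refine mul_le_mul_of_nonneg_left ?_ (hq0 w)
        by_cases c : Gf q x ι R (x w) (o w) < t
        · refine le_trans (le_of_eq ?_) c.le
          unfold Gf
          refine Finset.sum_congr rfl fun w' _ => ?_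
          congr 1
          by_cases c' : R (x w) (ι w') (o w)
          · rw [if_pos ⟨c', c⟩, if_pos c']
          · rw [if_neg (fun e => c' e.1), if_neg c']
        · refine le_trans (le_of_eq ?_) ht
          refine Finset.sum_eq_zero fun w' _ => ?_
          rw [if_neg (fun e : R (x w) (ι w') (o w) ∧ Gf q x ι R (x w) (o w) < t => c e.2), mul_zero]
    _ = t := by rw [← Finset.sum_mul, hq.sum_one, one_mul]

open Classical in
/-- Choice of a label for every block. -/
theorem choice (hq : IsLaw q) (x : W → B) (ι : W → I) (o : W → O) (R : B → I → O → Prop)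
    (f : W → ℝ) (hf : ∀ w, 0 ≤ f w) (hfq : ∀ w, q w = 0 → f w = 0) : ∃ h : B → I,
    ∑ w, f w * Gf q x ι R (x w) (o w) ≤
      ∑ w, f w * (if R (x w) (h (x w)) (o w) then 1 else 0) := by
  have hq0 := hq.nonneg
  have hne : Nonempty W := by
    by_contra hn
    rw [not_nonempty_iff] at hn
    have := hq.sum_one
    rw [Finset.univ_eq_empty, Finset.sum_empty] at this
    exact zero_ne_one this
  -- the gain of a label
  set gn : B → W → ℝ := fun b w' => ∑ w, if x w = b then
    f w * (if R b (ι w') (o w) then 1 else 0) else 0 with hgn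
  have hmax : ∀ b, ∃ w₀ : W, ∀ w', gn b w' ≤ gn b w₀ := fun b => by
    obtain ⟨w₀, -, h0⟩ := Finset.exists_max_image univ (gn b) Finset.univ_nonempty
    exact ⟨w₀, fun w' => h0 w' (Finset.mem_univ _)⟩
  choose m hm using hmax
  refine ⟨fun b => ι (m b), ?_⟩
  -- group by the value of `x`
  have grp : ∀ F : W → ℝ, ∑ w, F w = ∑ b ∈ univ.image x, ∑ w, if x w = b then F w else 0 := by
    intro F
    rw [Finset.sum_comm]
    refine Finset.sum_congr rfl fun w _ => ?_
    rw [Finset.sum_ite_eq, if_pos (Finset.mem_image_of_mem _ (Finset.mem_univ w))]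
  rw [grp, grp (fun w => f w * (if R (x w) (ι (m (x w))) (o w) then 1 else 0))]
  refine Finset.sum_le_sum fun b _ => ?_
  have e1 : (∑ w, if x w = b then f w * Gf q x ι R (x w) (o w) else 0) =
      ∑ w', (if x w' = b then q w' else 0) / law q x b * gn b w' := by
    simp only [hgn, Finset.mul_sum]
    rw [Finset.sum_comm]
    refine Finset.sum_congr rfl fun w _ => ?_
    by_cases c : x w = b
    · rw [if_pos c, c]
      unfold Gf
      rw [Finset.mul_sum]
      refine Finset.sum_congr rfl fun w' _ => ?_
      rw [if_pos rfl]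
      ring
    · rw [if_neg c]
      refine (Finset.sum_eq_zero fun w' _ => ?_).symm
      rw [if_neg c, mul_zero]
  have e2 : (∑ w, if x w = b then f w * (if R (x w) (ι (m (x w))) (o w) then 1 else 0) else 0) =
      gn b (m b) := by
    simp only [hgn]
    refine Finset.sum_congr rfl fun w _ => ?_
    by_cases c : x w = b
    · rw [if_pos c, if_pos c, c]
    · rw [if_neg c, if_neg c]
  rw [e1, e2]
  have h0 : 0 ≤ gn b (m b) := by
    simp only [hgn]
    refine Finset.sum_nonneg fun w _ => ?_
    split_ifs
    · exact mul_nonneg (hf w) zero_le_one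
    · exact mul_nonneg (hf w) le_rfl
    · exact le_rfl
  have hl := law_nonneg hq0 x b
  calc ∑ w', (if x w' = b then q w' else 0) / law q x b * gn b w'
      ≤ ∑ w', (if x w' = b then q w' else 0) / law q x b * gn b (m b) := by
        refine Finset.sum_le_sum fun w' _ => mul_le_mul_of_nonneg_left (hm b w')
          (div_nonneg ?_ hl)
        split_ifs
        · exact hq0 w'
        · exact le_rfl
    _ = law q x b / law q x b * gn b (m b) := by
        rw [← Finset.sum_mul, ← Finset.sum_div]
        rfl
    _ ≤ 1 * gn b (m b) := mul_le_mul_of_nonneg_right (div_self_le_one _) h0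
    _ = gn b (m b) := one_mul _

end pop

section cut

/-- Half of the Boolean functions have a given value at a given point, under a condition which does
not depend on this value. -/
theorem flip_sum {B : Type} [Fintype B] [DecidableEq B] (a : B) (P : (B → Bool) → Prop)
    [DecidablePred P] (hP : ∀ f : B → Bool, P (Function.update f a (!f a)) ↔ P f) (v : Bool) :
    ∑ f : B → Bool, (if f a = v ∧ P f then (1 : ℝ) else 0) =
      (∑ f : B → Bool, if P f then (1 : ℝ) else 0) / 2 := by
  have inv : ∀ f : B → Bool, Function.update (Function.update f a (!f a)) a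
      (!(Function.update f a (!f a)) a) = f := by
    intro f
    rw [Function.update_self, Bool.not_not, Function.update_idem, Function.update_eq_self]
  have e1 : ∑ f : B → Bool, (if f a = v ∧ P f then (1 : ℝ) else 0) =
      ∑ f : B → Bool, (if f a = !v ∧ P f then (1 : ℝ) else 0) := by
    refine Fintype.sum_bijective (fun f : B → Bool => Function.update f a (!f a))
      (Function.Involutive.bijective inv) _ _ fun f => ?_
    have h1 : (Function.update f a (!f a)) a = !v ↔ f a = v := by
      rw [Function.update_self]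
      constructor
      · intro h
        exact Bool.not_inj h
      · intro h
        rw [h]
    by_cases c : f a = v ∧ P f
    · rw [if_pos c, if_pos ⟨h1.2 c.1, (hP f).2 c.2⟩]
    · rw [if_neg c, if_neg (fun e => c ⟨h1.1 e.1, (hP f).1 e.2⟩)]
  have e2 : ∑ f : B → Bool, (if P f then (1 : ℝ) else 0) =
      ∑ f : B → Bool, (if f a = v ∧ P f then (1 : ℝ) else 0) +
        ∑ f : B → Bool, (if f a = !v ∧ P f then (1 : ℝ) else 0) := by
    rw [← Finset.sum_add_distrib]
    refine Finset.sum_congr rfl fun f _ => ?_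
    by_cases c : P f
    · by_cases c' : f a = v
      · have c2 : ¬ (f a = !v) := by
          rw [c']
          cases v <;> simp
        rw [if_pos c, if_pos ⟨c', c⟩, if_neg (fun e => c2 e.1), add_zero]
      · have c2 : f a = !v := by
          revert c'
          cases f a <;> cases v <;> simp
        rw [if_pos c, if_neg (fun e => c' e.1), if_pos ⟨c2, c⟩, zero_add]
    · rw [if_neg c, if_neg (fun e => c e.2), if_neg (fun e => c e.2), add_zero]
  rw [e2, ← e1]
  ring

/-- A quarter of the Boolean functions separate two points. -/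
theorem sep_sum {B : Type} [Fintype B] [DecidableEq B] {a b : B} (hab : a ≠ b) :
    ∑ f : B → Bool, (if f a = true ∧ f b = false then (1 : ℝ) else 0) =
      (∑ _f : B → Bool, (1 : ℝ)) / 4 := by
  rw [flip_sum a (fun f => f b = false) (fun f => by
    rw [Function.update_of_ne (Ne.symm hab)]) true]
  have h := flip_sum b (fun _ => True) (fun f => Iff.rfl) false
  simp only [and_true, if_true] at h
  rw [h]
  ring

open Classical in
/-- A set of blocks which separates a quarter of the pairs. -/
theorem cut {W B : Type} [Fintype W] (x x' : W → B) (f : W → ℝ) (hne : ∀ w, f w ≠ 0 → x w ≠ x' w) :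
    ∃ s : B → Prop, (∑ w, f w) / 4 ≤ ∑ w, if s (x w) ∧ ¬ s (x' w) then f w else 0 := by
  set T : Finset B := univ.image x ∪ univ.image x' with hT
  have mx : ∀ w, x w ∈ T := fun w =>
    Finset.mem_union_left _ (Finset.mem_image_of_mem _ (Finset.mem_univ w))
  have mx' : ∀ w, x' w ∈ T := fun w =>
    Finset.mem_union_right _ (Finset.mem_image_of_mem _ (Finset.mem_univ w))
  by_contra hcon
  push Not at hcon
  have key : ∀ g : T → Bool, ∑ w, (if g ⟨x w, mx w⟩ = true ∧ g ⟨x' w, mx' w⟩ = false then f w
      else 0) < (∑ w, f w) / 4 := by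
    intro g
    have h1 := hcon (fun b => ∃ hb : b ∈ T, g ⟨b, hb⟩ = true)
    refine lt_of_le_of_lt (le_of_eq (Finset.sum_congr rfl fun w _ => ?_)) h1
    have i1 : (∃ hb : x w ∈ T, g ⟨x w, hb⟩ = true) ↔ g ⟨x w, mx w⟩ = true :=
      ⟨fun ⟨_, h⟩ => h, fun h => ⟨mx w, h⟩⟩
    have i2 : ¬ (∃ hb : x' w ∈ T, g ⟨x' w, hb⟩ = true) ↔ g ⟨x' w, mx' w⟩ = false := by
      rw [← Bool.not_eq_true]
      exact not_congr ⟨fun ⟨_, h⟩ => h, fun h => ⟨mx' w, h⟩⟩
    by_cases c : g ⟨x w, mx w⟩ = true ∧ g ⟨x' w, mx' w⟩ = false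
    · rw [if_pos c, if_pos ⟨i1.2 c.1, i2.2 c.2⟩]
    · rw [if_neg c, if_neg (fun e => c ⟨i1.1 e.1, i2.1 e.2⟩)]
  have s1 : ∑ g : T → Bool, ∑ w, (if g ⟨x w, mx w⟩ = true ∧ g ⟨x' w, mx' w⟩ = false then f w
      else 0) < ∑ _g : T → Bool, (∑ w, f w) / 4 :=
    Finset.sum_lt_sum_of_nonempty Finset.univ_nonempty fun g _ => key g
  have s2 : ∑ g : T → Bool, ∑ w, (if g ⟨x w, mx w⟩ = true ∧ g ⟨x' w, mx' w⟩ = false then f w
      else 0) = ∑ w, f w * ((∑ _g : T → Bool, (1 : ℝ)) / 4) := by
    rw [Finset.sum_comm]
    refine Finset.sum_congr rfl fun w _ => ?_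
    by_cases c : f w = 0
    · rw [c, zero_mul]
      refine Finset.sum_eq_zero fun g _ => ?_
      split_ifs <;> rfl
    · have hab : (⟨x w, mx w⟩ : T) ≠ ⟨x' w, mx' w⟩ := fun e =>
        hne w c (congrArg Subtype.val e)
      rw [← sep_sum hab, Finset.mul_sum]
      refine Finset.sum_congr rfl fun g _ => ?_
      split_ifs
      · rw [mul_one]
      · rw [mul_zero]
  rw [s2, ← Finset.sum_mul, Finset.sum_const, Finset.sum_const, nsmul_eq_mul, nsmul_eq_mul] at s1
  refine absurd s1 (not_lt.2 (le_of_eq ?_))
  ring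

end cut

open Classical in
/-- **Row POP.** -/
theorem pop_thm : Pool.STAT.PopStmt := by
  intro η hη
  refine ⟨min (η / 4) ((η / 4) ^ 3 / 4), lt_min (by linarith) (by positivity), ?_⟩
  intro W B I O O' _ q x x' ι ι' o o' R R' E hq hI hI' hE hP
  have hq0 := hq.nonneg
  obtain ⟨t, ht⟩ : ∃ t, t = η / 4 := ⟨_, rfl⟩
  have ht0 : 0 < t := by rw [ht]; linarith
  have hne : Nonempty W := by
    by_contra hn
    rw [not_nonempty_iff] at hn
    have := hq.sum_one
    rw [Finset.univ_eq_empty, Finset.sum_empty] at this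
    exact zero_ne_one this
  obtain ⟨w₁⟩ := hne
  by_cases hdiag : t ≤ Pb q (fun w => E w ∧ x w = x' w)
  · refine ⟨fun _ => ι w₁, (min_le_left _ _).trans ?_⟩
    rw [← ht]
    refine hdiag.trans ?_
    unfold Pb
    refine Finset.sum_le_sum fun w _ => ?_
    by_cases c : E w ∧ x w = x' w
    · rw [if_pos c, if_pos ⟨c.1, Or.inl c.2⟩]
    · rw [if_neg c]
      split_ifs
      · exact hq0 w
      · exact le_rfl
  · push Not at hdiag
    -- the good event
    set E₂ : W → Prop := fun w => E w ∧ x w ≠ x' w ∧ t ≤ Gf q x ι R (x w) (o w) ∧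
      t ≤ Gf q x' ι' R' (x' w) (o' w) with hE₂
    have hE2 : t ≤ Pb q E₂ := by
      have r1 := rare hq hI R ht0.le
      have r2 := rare hq hI' R' ht0.le
      have s : Pb q E ≤ Pb q E₂ + Pb q (fun w => E w ∧ x w = x' w) +
          Pb q (fun w => R (x w) (ι w) (o w) ∧ Gf q x ι R (x w) (o w) < t) +
          Pb q (fun w => R' (x' w) (ι' w) (o' w) ∧ Gf q x' ι' R' (x' w) (o' w) < t) := by
        unfold Pb
        rw [← Finset.sum_add_distrib, ← Finset.sum_add_distrib, ← Finset.sum_add_distrib]
        refine Finset.sum_le_sum fun w _ => ?_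
        have n0 : ∀ P : Prop, 0 ≤ (if P then q w else 0) := fun P => by
          split_ifs
          · exact hq0 w
          · exact le_rfl
        by_cases c : E w
        · rw [if_pos c]
          have m0 := n0 (E₂ w)
          have m1 := n0 (E w ∧ x w = x' w)
          have m2 := n0 (R (x w) (ι w) (o w) ∧ Gf q x ι R (x w) (o w) < t)
          have m3 := n0 (R' (x' w) (ι' w) (o' w) ∧ Gf q x' ι' R' (x' w) (o' w) < t)
          obtain ⟨hr, hr'⟩ := hE w c
          by_cases c1 : x w = x' w
          · rw [if_pos (⟨c, c1⟩ : E w ∧ x w = x' w)] at m1 ⊢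
            linarith
          · by_cases c2 : Gf q x ι R (x w) (o w) < t
            · rw [if_pos (⟨hr, c2⟩ : R (x w) (ι w) (o w) ∧ Gf q x ι R (x w) (o w) < t)] at m2 ⊢
              linarith
            · by_cases c3 : Gf q x' ι' R' (x' w) (o' w) < t
              · rw [if_pos (⟨hr', c3⟩ : R' (x' w) (ι' w) (o' w) ∧
                  Gf q x' ι' R' (x' w) (o' w) < t)] at m3 ⊢
                linarith
              · have c4 : E₂ w := ⟨c, c1, not_lt.1 c2, not_lt.1 c3⟩
                rw [if_pos c4] at m0 ⊢
                linarith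
        · rw [if_neg c]
          have m0 := n0 (E₂ w)
          have m1 := n0 (E w ∧ x w = x' w)
          have m2 := n0 (R (x w) (ι w) (o w) ∧ Gf q x ι R (x w) (o w) < t)
          have m3 := n0 (R' (x' w) (ι' w) (o' w) ∧ Gf q x' ι' R' (x' w) (o' w) < t)
          linarith
      have : η = 4 * t := by rw [ht]; ring
      linarith
    -- the labels
    obtain ⟨h₀, hh₀⟩ := choice hq x ι o R (fun w => if E₂ w then q w else 0)
      (fun w => by
        split_ifs
        · exact hq0 w
        · exact le_rfl)
      (fun w h => by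
        split_ifs
        · exact h
        · rfl)
    set f₁ : W → ℝ := fun w => if E₂ w ∧ R (x w) (h₀ (x w)) (o w) then q w else 0 with hf₁
    have hf₁0 : ∀ w, 0 ≤ f₁ w := fun w => by
      simp only [hf₁]
      split_ifs
      · exact hq0 w
      · exact le_rfl
    obtain ⟨h₁, hh₁⟩ := choice hq x' ι' o' R' f₁ hf₁0 (fun w h => by
      simp only [hf₁]
      split_ifs
      · exact h
      · rfl)
    have b1 : t * t ≤ ∑ w, f₁ w := by
      calc t * t ≤ t * Pb q E₂ := mul_le_mul_of_nonneg_left hE2 ht0.le
        _ = ∑ w, (if E₂ w then q w else 0) * t := by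
            unfold Pb
            rw [Finset.mul_sum]
            refine Finset.sum_congr rfl fun w _ => ?_
            by_cases c : E₂ w
            · rw [if_pos c, if_pos c, mul_comm]
            · rw [if_neg c, if_neg c, mul_zero, zero_mul]
        _ ≤ ∑ w, (if E₂ w then q w else 0) * Gf q x ι R (x w) (o w) := by
            refine Finset.sum_le_sum fun w _ => ?_
            by_cases c : E₂ w
            · rw [if_pos c]
              exact mul_le_mul_of_nonneg_left c.2.2.1 (hq0 w)
            · rw [if_neg c, zero_mul, zero_mul]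
        _ ≤ _ := hh₀
        _ = ∑ w, f₁ w := by
            refine Finset.sum_congr rfl fun w _ => ?_
            simp only [hf₁]
            by_cases c : E₂ w
            · by_cases c' : R (x w) (h₀ (x w)) (o w)
              · rw [if_pos c, if_pos c', mul_one, if_pos ⟨c, c'⟩]
              · rw [if_neg c', mul_zero, if_neg (fun e => c' e.2)]
            · rw [if_neg c, zero_mul, if_neg (fun e => c e.1)]
    set f₂ : W → ℝ := fun w => if E₂ w ∧ R (x w) (h₀ (x w)) (o w) ∧ R' (x' w) (h₁ (x' w)) (o' w)
      then q w else 0 with hf₂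
    have b2 : t * (t * t) ≤ ∑ w, f₂ w := by
      calc t * (t * t) ≤ t * ∑ w, f₁ w := mul_le_mul_of_nonneg_left b1 ht0.le
        _ = ∑ w, f₁ w * t := by
            rw [Finset.mul_sum]
            exact Finset.sum_congr rfl fun w _ => mul_comm _ _
        _ ≤ ∑ w, f₁ w * Gf q x' ι' R' (x' w) (o' w) := by
            refine Finset.sum_le_sum fun w _ => ?_
            simp only [hf₁]
            by_cases c : E₂ w ∧ R (x w) (h₀ (x w)) (o w)
            · rw [if_pos c]
              exact mul_le_mul_of_nonneg_left c.1.2.2.2 (hq0 w)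
            · rw [if_neg c, zero_mul, zero_mul]
        _ ≤ _ := hh₁
        _ = ∑ w, f₂ w := by
            refine Finset.sum_congr rfl fun w _ => ?_
            simp only [hf₁, hf₂]
            by_cases c : E₂ w ∧ R (x w) (h₀ (x w)) (o w)
            · by_cases c' : R' (x' w) (h₁ (x' w)) (o' w)
              · rw [if_pos c, if_pos c', mul_one, if_pos ⟨c.1, c.2, c'⟩]
              · rw [if_neg c', mul_zero, if_neg (fun e => c' e.2.2)]
            · rw [if_neg c, zero_mul, if_neg (fun e => c ⟨e.1, e.2.1⟩)]
    obtain ⟨s, hs⟩ := cut x x' f₂ (fun w hw => by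
      by_contra hcon
      refine hw ?_
      simp only [hf₂]
      rw [if_neg]
      intro e
      exact e.1.2.1 hcon)
    refine ⟨fun b => if s b then h₀ b else h₁ b, (min_le_right _ _).trans ?_⟩
    have b3 : (η / 4) ^ 3 / 4 = t * (t * t) / 4 := by rw [ht]; ring
    rw [b3]
    refine (div_le_div_of_nonneg_right b2 (by norm_num)).trans (hs.trans ?_)
    unfold Pb
    refine Finset.sum_le_sum fun w _ => ?_
    have n0 : ∀ P : Prop, 0 ≤ (if P then q w else 0) := fun P => by
      split_ifs
      · exact hq0 w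
      · exact le_rfl
    by_cases c : s (x w) ∧ ¬ s (x' w)
    · rw [if_pos c]
      simp only [hf₂]
      by_cases c' : E₂ w ∧ R (x w) (h₀ (x w)) (o w) ∧ R' (x' w) (h₁ (x' w)) (o' w)
      · have c3 : E w ∧ (x w = x' w ∨ (R (x w) (if s (x w) then h₀ (x w) else h₁ (x w)) (o w) ∧
            R' (x' w) (if s (x' w) then h₀ (x' w) else h₁ (x' w)) (o' w))) := by
          refine ⟨c'.1.1, Or.inr ?_⟩
          rw [if_pos c.1, if_neg c.2]
          exact c'.2
        rw [if_pos c', if_pos (show E w ∧ (x w = x' w ∨ (R (x w) ((fun b => if s b then h₀ b else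
          h₁ b) (x w)) (o w) ∧ R' (x' w) ((fun b => if s b then h₀ b else h₁ b) (x' w)) (o' w)))
          from c3)]
      · rw [if_neg c']
        exact n0 _
    · rw [if_neg c]
      exact n0 _

end Pool.Pop20
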