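import Pool.Agent.H54.GN.Lb
import Pool.Agent.H71.GEN.Vel

/-!
# Remez inequality in the time, for events of fixed probability and large time deficits

`rmz_pure` (R1): a polynomial in the time which is a function of the variable `lam` (the line and
the window) and which is small on an event `A` of probability at least `η` is small, with its
derivative, on the whole window, on an event of probability at least `η / 2`; the loss is `C E`
digits, `E` being the time deficit.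

`rmz_fam` (R2): the same for the deviation of a line of a family from a polynomial graph over the
other coordinates.
-/

set_option autoImplicit false

namespace Pool.STAT.Rmz

open Finset Real
open Pool.Agent.H49.Ent Pool.Agent.H32.Dense Pool.STK Pool.KA Pool.KSAT Pool.K2S Pool.PB Pool.GEN
open Pool.KAF Pool.KAL
open Pool.BFL (Pb)

/-! ### The mass of the bad windows -/

/-- The mass of the part of `Gd` in the bad windows. -/
theorem rem_mass (D : ℕ) : ∃ C : ℝ, 1 ≤ C ∧ ∀ (Ω S' : Type) [Fintype Ω] (p : Ω → ℝ) (N : ℕ)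
    (T : Ω → ℕ) (s : Ω → S') (q : S' → Polynomial ℝ) (Gd : Ω → Prop) (S₀ : S' → ℝ) (θ M : ℝ),
    IsLaw p → (∀ ω, T ω < N) → (∀ x, (q x).natDegree ≤ D) → 0 ≤ θ → 0 ≤ M →
    Real.log N - θ ≤ CH p T s → (∀ x, 0 < S₀ x) → M ≤ Real.log N →
    (∀ ω, Gd ω → |(q (s ω)).eval ((T ω : ℝ) / N)| ≤ S₀ (s ω)) →
    M * Pe p (fun ω => Gd ω ∧ ¬ ∀ t ∈ Set.Icc (0 : ℝ) 1,
      |(q (s ω)).eval t| ≤ Real.exp M * S₀ (s ω)) ≤ C * (θ + 1) := by
  classical
  obtain ⟨D', hD'⟩ : ∃ D', D' = max D 1 := ⟨_, rfl⟩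
  have hDD : D ≤ D' := by rw [hD']; exact le_max_left _ _
  have hD1 : 1 ≤ D' := by rw [hD']; exact le_max_right _ _
  obtain ⟨C', hC', hrim⟩ := rim_thm rmg_thm gvi_thm D'
  refine ⟨2 * D' * (1 + C') + 1, by
    have : 0 ≤ 2 * D' * (1 + C') := by positivity
    linarith, ?_⟩
  intro Ω S' _ p N T s q Gd S₀ θ M hp hT hq hθ hM0 hCH hS₀ hN hGd
  have hp0 := hp.nonneg
  obtain ⟨B, hB⟩ : ∃ B : S' → Prop, B = fun x => ¬ ∀ t ∈ Set.Icc (0 : ℝ) 1,
      |(q x).eval t| ≤ Real.exp M * S₀ x := ⟨_, rfl⟩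
  obtain ⟨g, hg⟩ : ∃ g : Ω → ℝ, g = fun ω => if Gd ω ∧ B (s ω) then 1 else 0 := ⟨_, rfl⟩
  obtain ⟨d, hd⟩ : ∃ d : Ω → ℝ, d = fun ω => Real.log N -
      H (Pool.Agent.H49.Ent.cond p s (s ω)) T := ⟨_, rfl⟩
  have hlaw : ∀ ω, 0 < p ω → IsLaw (Pool.Agent.H49.Ent.cond p s (s ω)) := fun ω hω =>
    ⟨fun a => cond_nonneg hp0 _ _ a, sum_cond p _ (law_pos hp0 s hω).ne'⟩
  have hd0 : ∀ ω, 0 < p ω → 0 ≤ d ω := by
    intro ω hω
    have h1 := H_le_log_card (hlaw ω hω).nonneg (hlaw ω hω).sum_one T (Finset.range N)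
      (fun ω _ => Finset.mem_range.2 (hT ω))
    rw [Finset.card_range] at h1
    rw [hd]
    simp only
    linarith
  have hdm : Ex p d ≤ θ := by
    have h1 : Ex p (fun ω => H (Pool.Agent.H49.Ent.cond p s (s ω)) T) = CH p T s :=
      CDF.Ex_H hp0 T s
    have e := Ex_sub p (fun _ => Real.log N)
      (fun ω => H (Pool.Agent.H49.Ent.cond p s (s ω)) T)
    rw [Ex_const hp.sum_one, h1] at e
    rw [hd, e]
    linarith
  -- the pointwise bound
  have hpt : ∀ ω, 0 < p ω → M * Ex (Pool.Agent.H49.Ent.cond p s (s ω)) g ≤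
      2 * D' * (d ω + C') := by
    intro ω hω
    have hfib : ∀ ω', 0 < Pool.Agent.H49.Ent.cond p s (s ω) ω' → s ω' = s ω := fun ω' h =>
      ((cond_pos_iff hp0 s (s ω) ω').1 h).2
    by_cases hBω : B (s ω)
    · rw [hd]
      simp only
      rw [hB] at hBω
      refine Pool.BFL.Rem.core (hlaw ω hω) hT hD1
        (fun P S h1 h2 h3 => hrim Ω _ N T P S (hlaw ω hω) hT h1 h2 h3)
        ((hq (s ω)).trans hDD) hM0 (hS₀ (s ω)) hN g (fun ω' h => ?_) (fun ω' h h' => ?_) hBω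
      · rw [hg]
        simp only
        split_ifs
        · exact ⟨zero_le_one, le_rfl⟩
        · exact ⟨le_rfl, zero_le_one⟩
      · have h1 := hfib ω' h
        have h2 : Gd ω' := by
          by_contra h3
          refine h' ?_
          rw [hg]
          simp only
          rw [if_neg fun h4 => h3 h4.1]
        have h3 := hGd ω' h2
        rwa [h1] at h3
    · have h1 : Ex (Pool.Agent.H49.Ent.cond p s (s ω)) g = 0 := by
        unfold Ex
        refine Finset.sum_eq_zero fun ω' _ => ?_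
        rcases ((hlaw ω hω).nonneg ω').eq_or_lt with h0 | h0
        · rw [← h0, zero_mul]
        · rw [hg]
          simp only
          rw [if_neg fun h4 => hBω (by rw [← hfib ω' h0]; exact h4.2), mul_zero]
      rw [h1, mul_zero]
      have := hd0 ω hω
      positivity
  have htow : Ex p (fun ω => Ex (Pool.Agent.H49.Ent.cond p s (s ω)) g) = Ex p g :=
    Pool.KVA.Ex_tower hp0 s g
  have h1 : M * Ex p g ≤ 2 * D' * (θ + C') := by
    rw [← htow]
    have h2 : M * Ex p (fun ω => Ex (Pool.Agent.H49.Ent.cond p s (s ω)) g) ≤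
        Ex p (fun ω => 2 * D' * (d ω + C')) := by
      unfold Ex
      rw [Finset.mul_sum]
      refine Finset.sum_le_sum fun ω _ => ?_
      rcases (hp0 ω).eq_or_lt with h0 | h0
      · rw [← h0, zero_mul, zero_mul, mul_zero]
      · have := mul_le_mul_of_nonneg_left (hpt ω h0) h0.le
        unfold Ex at this
        calc M * (p ω * ∑ x, Pool.Agent.H49.Ent.cond p s (s ω) x * g x) =
              p ω * (M * ∑ x, Pool.Agent.H49.Ent.cond p s (s ω) x * g x) := by ring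
          _ ≤ _ := this
    have h3 : Ex p (fun ω => 2 * D' * (d ω + C')) = 2 * D' * (Ex p d + C') := by
      unfold Ex
      rw [show (2 : ℝ) * D' * (∑ ω, p ω * d ω + C') = ∑ ω, 2 * D' * (p ω * d ω) +
        2 * D' * C' * ∑ ω, p ω by
          rw [hp.sum_one, ← Finset.mul_sum]
          ring, Finset.mul_sum, ← Finset.sum_add_distrib]
      refine Finset.sum_congr rfl fun ω _ => ?_
      ring
    rw [h3] at h2
    have h4 : 2 * (D' : ℝ) * (Ex p d + C') ≤ 2 * D' * (θ + C') :=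
      mul_le_mul_of_nonneg_left (by linarith) (by positivity)
    linarith
  have h2 : Pe p (fun ω => Gd ω ∧ ¬ ∀ t ∈ Set.Icc (0 : ℝ) 1,
      |(q (s ω)).eval t| ≤ Real.exp M * S₀ (s ω)) = Ex p g := by
    rw [Pe_eq, hg, hB]
    unfold Ex
    refine Finset.sum_congr rfl fun ω _ => ?_
    simp only
    by_cases h : Gd ω ∧ ¬ ∀ t ∈ Set.Icc (0 : ℝ) 1,
      |(q (s ω)).eval t| ≤ Real.exp M * S₀ (s ω)
    · rw [if_pos h, if_pos h, mul_one]
    · rw [if_neg h, if_neg h, mul_zero]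
  rw [h2]
  refine h1.trans ?_
  have h7 : 0 ≤ (D' : ℝ) * (C' * θ) := by positivity
  have h8 : (0 : ℝ) ≤ D' := Nat.cast_nonneg _
  have e : (2 * (D' : ℝ) * (1 + C') + 1) * (θ + 1) = 2 * D' * (θ + C') + 2 * (D' * (C' * θ)) +
    2 * D' + (θ + 1) := by ring
  rw [e]
  linarith

/-! ### (R1) -/

/-- The polynomial in the relative time of the window `j`. -/
noncomputable def rel (w j : ℕ) (f : Polynomial ℝ) : Polynomial ℝ :=
  f.comp (Polynomial.C ((j : ℝ) / 2 ^ w) + Polynomial.C (1 / 2 ^ w) * Polynomial.X)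

theorem natDegree_rel {w j K : ℕ} {f : Polynomial ℝ} (hf : f.natDegree ≤ K) :
    (rel w j f).natDegree ≤ K := by
  unfold rel
  refine Polynomial.natDegree_comp_le.trans ?_
  have h1 : (Polynomial.C ((j : ℝ) / 2 ^ w) +
      Polynomial.C (1 / 2 ^ w) * Polynomial.X : Polynomial ℝ).natDegree ≤ 1 := by
    refine (Polynomial.natDegree_add_le _ _).trans (max_le ?_ ?_)
    · rw [Polynomial.natDegree_C]
      exact Nat.zero_le _
    · exact (Polynomial.natDegree_C_mul_le _ _).trans Polynomial.natDegree_X_le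
  calc f.natDegree * _ ≤ f.natDegree * 1 := Nat.mul_le_mul_left _ h1
    _ ≤ K := by rw [mul_one]; exact hf

theorem eval_rel (w j : ℕ) (f : Polynomial ℝ) (x : ℝ) :
    (rel w j f).eval x = f.eval ((j + x) / 2 ^ w) := by
  unfold rel
  rw [Polynomial.eval_comp]
  congr 1
  simp only [Polynomial.eval_add, Polynomial.eval_mul, Polynomial.eval_C, Polynomial.eval_X]
  ring

theorem der_rel (w j : ℕ) (f : Polynomial ℝ) (x : ℝ) :
    (rel w j f).derivative.eval x = 1 / 2 ^ w * f.derivative.eval ((j + x) / 2 ^ w) := by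
  unfold rel
  rw [Polynomial.derivative_comp, Polynomial.eval_mul, Polynomial.eval_comp]
  have h1 : (Polynomial.C ((j : ℝ) / 2 ^ w) +
      Polynomial.C (1 / 2 ^ w) * Polynomial.X : Polynomial ℝ).derivative =
      Polynomial.C (1 / 2 ^ w) := by
    simp
  have h2 : (Polynomial.C ((j : ℝ) / 2 ^ w) +
      Polynomial.C (1 / 2 ^ w) * Polynomial.X : Polynomial ℝ).eval x = (j + x) / 2 ^ w := by
    simp only [Polynomial.eval_add, Polynomial.eval_mul, Polynomial.eval_C, Polynomial.eval_X]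
    ring
  rw [h1, h2, Polynomial.eval_C]

/-- The time in the window. -/
theorem time_split {J w T : ℕ} (hw : w ≤ J) :
    (T : ℝ) / 2 ^ J = (((T / 2 ^ (J - w) : ℕ) : ℝ) +
      ((T % 2 ^ (J - w) : ℕ) : ℝ) / ((2 ^ (J - w) : ℕ) : ℝ)) / 2 ^ w := by
  have hJJ : (2 : ℝ) ^ J = 2 ^ (J - w) * 2 ^ w := by rw [← pow_add, Nat.sub_add_cancel hw]
  have h1 : (T : ℝ) = 2 ^ (J - w) * ((T / 2 ^ (J - w) : ℕ) : ℝ) +
      ((T % 2 ^ (J - w) : ℕ) : ℝ) := by
    have := Nat.div_add_mod T (2 ^ (J - w))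
    exact_mod_cast this.symm
  have h2 : (0 : ℝ) < 2 ^ (J - w) := by positivity
  have h3 : (0 : ℝ) < 2 ^ w := by positivity
  rw [h1, hJJ]
  push_cast
  field_simp

/-- **(R1)** Remez inequality in the time: an event of probability at least `η`, the deficit `E`
of the time given `lam`. -/
theorem rmz_pure (K : ℕ) (η : ℝ) (hη : 0 < η) : ∃ C : ℝ, 1 ≤ C ∧
    ∀ (J w P : ℕ) (Ω L : Type) [Fintype Ω] (q : Ω → ℝ) (T : Ω → ℕ) (lam : Ω → L)
    (A : Ω → Prop) (E : ℝ) (f : L → Polynomial ℝ), IsLaw q → (∀ ω, T ω < 2 ^ J) → w ≤ J →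
    Det q lam (fun ω => T ω / 2 ^ (J - w)) → η ≤ Pe q A → 1 ≤ E →
    ((J : ℝ) - w) * Real.log 2 - E ≤ CH q T lam → C * E ≤ ((J : ℝ) - w) * Real.log 2 →
    (∀ l, (f l).natDegree ≤ K) →
    (∀ ω, A ω → |(f (lam ω)).eval ((T ω : ℝ) / 2 ^ J)| ≤ 1 / 2 ^ P) →
    ∃ B : Ω → Prop, Sub B A ∧ Pe q A - η / 2 ≤ Pe q B ∧ ∀ c : ℕ, C * E ≤ c → ∀ ω, B ω →
      ∀ t ∈ Set.Icc (((T ω / 2 ^ (J - w) : ℕ) : ℝ) / 2 ^ w)
        ((((T ω / 2 ^ (J - w) : ℕ) : ℝ) + 1) / 2 ^ w),
      |(f (lam ω)).eval t| ≤ 2 ^ c / 2 ^ P ∧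
      |(f (lam ω)).derivative.eval t| ≤ 2 ^ (w + c) / 2 ^ P := by
  classical
  obtain ⟨C₁, hC₁, hrem⟩ := rem_mass K
  obtain ⟨C₂, hC₂, hmk⟩ := Pool.Agent.H40.BFL.unit_markov K
  have hl2 : 0 < Real.log 2 := Real.log_pos (by norm_num)
  have hC₂l : 0 ≤ Real.log C₂ := Real.log_nonneg hC₂
  obtain ⟨M₁, hM₁⟩ : ∃ M₁ : ℝ, M₁ = 4 * C₁ / η := ⟨_, rfl⟩
  have hM₁0 : 0 < M₁ := by rw [hM₁]; positivity
  refine ⟨(M₁ + Real.log C₂) / Real.log 2 + M₁ + 1, by
    have : 0 ≤ (M₁ + Real.log C₂) / Real.log 2 := by positivity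
    linarith, ?_⟩
  intro J w P Ω L _ q T lam A E f hq hT hw hdet hA hE hCH hJ hf hpos
  have hq0 := hq.nonneg
  have hE0 : 0 < E := by linarith
  obtain ⟨M, hM⟩ : ∃ M : ℝ, M = M₁ * E := ⟨_, rfl⟩
  have hM0 : 0 < M := by rw [hM]; positivity
  obtain ⟨s, hs⟩ : ∃ s : Ω → L × ℕ, s = fun ω => (lam ω, T ω / 2 ^ (J - w)) := ⟨_, rfl⟩
  have hlogN : Real.log ((2 ^ (J - w) : ℕ) : ℝ) = ((J : ℝ) - w) * Real.log 2 := by
    rw [Nat.cast_pow, Real.log_pow, Nat.cast_ofNat, Nat.cast_sub hw]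
  have hMN : M ≤ Real.log ((2 ^ (J - w) : ℕ) : ℝ) := by
    rw [hlogN]
    refine le_trans ?_ hJ
    rw [hM]
    refine mul_le_mul_of_nonneg_right ?_ hE0.le
    have : 0 ≤ (M₁ + Real.log C₂) / Real.log 2 := by positivity
    linarith
  have hCH' : Real.log ((2 ^ (J - w) : ℕ) : ℝ) - E ≤
      CH q (fun ω => T ω % 2 ^ (J - w)) s := by
    rw [hlogN]
    refine hCH.trans (le_of_eq ?_)
    refine CH_congr hq0 ?_ ?_ ?_ ?_
    · intro ω ω' _ _ h
      simp only [Prod.mk.injEq] at h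
      show T ω % 2 ^ (J - w) = T ω' % 2 ^ (J - w)
      rw [h.1]
    · intro ω ω' _ _ h
      simp only [hs, Prod.mk.injEq] at h
      obtain ⟨h1, h2, h3⟩ := h
      rw [← Nat.div_add_mod (T ω) (2 ^ (J - w)), ← Nat.div_add_mod (T ω') (2 ^ (J - w)), h1, h3]
    · intro ω ω' h1 h2 h
      rw [hs]
      exact Prod.ext h (hdet ω ω' h1 h2 h)
    · intro ω ω' _ _ h
      rw [hs] at h
      exact congrArg Prod.fst h
  have hev : ∀ ω, (rel w (s ω).2 (f (s ω).1)).eval
      (((T ω % 2 ^ (J - w) : ℕ) : ℝ) / ((2 ^ (J - w) : ℕ) : ℝ)) =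
      (f (lam ω)).eval ((T ω : ℝ) / 2 ^ J) := by
    intro ω
    rw [eval_rel, hs, ← time_split hw]
  have h1 := hrem Ω (L × ℕ) q (2 ^ (J - w)) (fun ω => T ω % 2 ^ (J - w)) s
    (fun x => rel w x.2 (f x.1)) A (fun _ => 1 / 2 ^ P) E M hq
    (fun ω => Nat.mod_lt _ (by positivity)) (fun x => natDegree_rel (hf x.1)) hE0.le hM0.le
    hCH' (fun _ => by positivity) hMN (fun ω hω => by
      rw [hev]
      exact hpos ω hω)
  obtain ⟨B, hB⟩ : ∃ B : Ω → Prop, B = fun ω => A ω ∧ ∀ t ∈ Set.Icc (0 : ℝ) 1,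
      |(rel w (s ω).2 (f (s ω).1)).eval t| ≤ Real.exp M * (1 / 2 ^ P) := ⟨_, rfl⟩
  have h2 : Pe q (fun ω => A ω ∧ ¬ ∀ t ∈ Set.Icc (0 : ℝ) 1,
      |(rel w (s ω).2 (f (s ω).1)).eval t| ≤ Real.exp M * (1 / 2 ^ P)) ≤ η / 2 := by
    have h3 : M * Pe q (fun ω => A ω ∧ ¬ ∀ t ∈ Set.Icc (0 : ℝ) 1,
        |(rel w (s ω).2 (f (s ω).1)).eval t| ≤ Real.exp M * (1 / 2 ^ P)) ≤ M * (η / 2) := by
      refine h1.trans ?_
      have e : M * (η / 2) = 2 * C₁ * E := by
        rw [hM, hM₁]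
        field_simp
        ring
      rw [e]
      nlinarith
    exact le_of_mul_le_mul_left h3 hM0
  have h3 : Pe q A ≤ Pe q B + Pe q (fun ω => A ω ∧ ¬ ∀ t ∈ Set.Icc (0 : ℝ) 1,
      |(rel w (s ω).2 (f (s ω).1)).eval t| ≤ Real.exp M * (1 / 2 ^ P)) := by
    rw [Pe_eq, Pe_eq, Pe_eq, ← Finset.sum_add_distrib]
    refine Finset.sum_le_sum fun ω _ => ?_
    have := hq0 ω
    by_cases a1 : A ω
    · by_cases a2 : ∀ t ∈ Set.Icc (0 : ℝ) 1,
        |(rel w (s ω).2 (f (s ω).1)).eval t| ≤ Real.exp M * (1 / 2 ^ P)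
      · have hBω : B ω := by
          rw [hB]
          exact ⟨a1, a2⟩
        rw [if_pos a1, if_pos hBω]
        split_ifs <;> linarith
      · have a3 : A ω ∧ ¬ ∀ t ∈ Set.Icc (0 : ℝ) 1,
            |(rel w (s ω).2 (f (s ω).1)).eval t| ≤ Real.exp M * (1 / 2 ^ P) := ⟨a1, a2⟩
        rw [if_pos a1, if_pos a3]
        split_ifs <;> linarith
    · rw [if_neg a1]
      split_ifs <;> linarith
  refine ⟨B, fun ω hω => by rw [hB] at hω; exact hω.1, by linarith, ?_⟩
  intro c hc ω hω t ht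
  rw [hB] at hω
  obtain ⟨_, hω⟩ := hω
  -- the constant
  have hcon : C₂ * Real.exp M ≤ 2 ^ c := by
    have e1 : (2 : ℝ) ^ c = Real.exp (c * Real.log 2) := by
      have := Real.exp_nat_mul (Real.log 2) c
      rw [Real.exp_log (by norm_num)] at this
      exact this.symm
    have e2 : C₂ = Real.exp (Real.log C₂) := (Real.exp_log (by linarith)).symm
    rw [e1, e2, ← Real.exp_add]
    refine Real.exp_le_exp.2 ?_
    have h4 : ((M₁ + Real.log C₂) / Real.log 2 + M₁ + 1) * E * Real.log 2 ≤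
        c * Real.log 2 := mul_le_mul_of_nonneg_right hc hl2.le
    have h5 : (M₁ + Real.log C₂) / Real.log 2 * Real.log 2 = M₁ + Real.log C₂ :=
      div_mul_cancel₀ _ hl2.ne'
    have h6 : ((M₁ + Real.log C₂) / Real.log 2 + M₁ + 1) * E * Real.log 2 =
        (M₁ + Real.log C₂) * E + (M₁ + 1) * E * Real.log 2 := by
      calc _ = ((M₁ + Real.log C₂) / Real.log 2 * Real.log 2) * E +
            (M₁ + 1) * E * Real.log 2 := by ring
        _ = _ := by rw [h5]
    have h7 : 0 ≤ (M₁ + 1) * E * Real.log 2 := by positivity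
    rw [hM]
    nlinarith
  have hexp : Real.exp M ≤ C₂ * Real.exp M := le_mul_of_one_le_left (Real.exp_pos _).le hC₂
  obtain ⟨x, hx⟩ : ∃ x : ℝ, x = 2 ^ w * t - ((T ω / 2 ^ (J - w) : ℕ) : ℝ) := ⟨_, rfl⟩
  have hw0 : (0 : ℝ) < 2 ^ w := by positivity
  have hxm : x ∈ Set.Icc (0 : ℝ) 1 := by
    have h4 := ht.1
    have h5 := ht.2
    rw [div_le_iff₀ hw0] at h4
    rw [le_div_iff₀ hw0] at h5
    constructor
    · rw [hx]
      linarith
    · rw [hx]
      linarith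
  have hxt : (((T ω / 2 ^ (J - w) : ℕ) : ℝ) + x) / 2 ^ w = t := by
    rw [hx]
    field_simp
    ring
  have hP : (0 : ℝ) < 1 / 2 ^ P := by positivity
  constructor
  · have h4 := hω x hxm
    rw [eval_rel, hs] at h4
    simp only at h4
    rw [hxt] at h4
    refine h4.trans ?_
    rw [div_eq_mul_one_div (2 ^ c : ℝ)]
    exact mul_le_mul_of_nonneg_right (hexp.trans hcon) hP.le
  · have h4 := hmk _ _ (natDegree_rel (w := w) (j := (s ω).2) (hf (s ω).1)) hω x hxm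
    rw [der_rel, hs] at h4
    simp only at h4
    rw [hxt, abs_mul, abs_of_pos (by positivity : (0 : ℝ) < 1 / 2 ^ w), one_div,
      inv_mul_le_iff₀ hw0] at h4
    refine h4.trans ?_
    have e : (2 : ℝ) ^ (w + c) / 2 ^ P = 2 ^ w * (2 ^ c * (1 / 2 ^ P)) := by
      rw [pow_add]
      ring
    rw [e]
    refine mul_le_mul_of_nonneg_left ?_ hw0.le
    rw [← mul_assoc]
    exact mul_le_mul_of_nonneg_right hcon (by positivity)

/-! ### (R2) -/

section

open MvPolynomial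

variable {m J : ℕ}

/-- The point of the line of the sample at the time `t`. -/
noncomputable def lt (F : Fam m J) (ω : F.Ω) (t : ℝ) : Option (Fin m) → ℝ
  | none => t
  | some j => F.u ω j + t * F.d ω j

theorem lt_t (F : Fam m J) (ω : F.Ω) : lt F ω (F.t ω) = bt F ω := by
  funext o
  cases o <;> rfl

/-- The line of the data `s` as a curve. -/
noncomputable def la {ζ : Type} (s : ((Fin m → ℝ) × (Fin m → ℝ)) × ζ × ℕ) :
    Option (Fin m) → Polynomial ℝ
  | none => Polynomial.X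
  | some j => Polynomial.C (s.1.1 j) + Polynomial.C (s.1.2 j) * Polynomial.X

theorem natDegree_la {ζ : Type} (s : ((Fin m → ℝ) × (Fin m → ℝ)) × ζ × ℕ)
    (o : Option (Fin m)) : (la s o).natDegree ≤ 1 := by
  cases o with
  | none => exact Polynomial.natDegree_X_le
  | some j =>
    refine (Polynomial.natDegree_add_le _ _).trans (max_le ?_ ?_)
    · rw [Polynomial.natDegree_C]
      exact Nat.zero_le _
    · exact (Polynomial.natDegree_C_mul_le _ _).trans Polynomial.natDegree_X_le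

theorem eval_la (F : Fam m J) (w : ℕ) (ω : F.Ω) (t : ℝ) (o : Option (Fin m)) :
    (la (slam F w ω) o).eval t = lt F ω t o := by
  cases o with
  | none => simp [la, lt]
  | some j =>
    simp only [la, lt, Polynomial.eval_add, Polynomial.eval_mul, Polynomial.eval_C,
      Polynomial.eval_X]
    have e1 : (slam F w ω).1.1 j = F.u ω j := rfl
    have e2 : (slam F w ω).1.2 j = F.d ω j := rfl
    rw [e1, e2]
    ring

theorem der_la (F : Fam m J) (w : ℕ) (ω : F.Ω) (o : Option (Fin m)) :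
    Polynomial.derivative (la (slam F w ω) o) = Polynomial.C (bd F ω o) := by
  cases o with
  | none => simp [la, bd]
  | some j =>
    have e2 : (slam F w ω).1.2 j = F.d ω j := rfl
    simp only [la, bd, e2, Polynomial.derivative_add, Polynomial.derivative_C,
      Polynomial.derivative_C_mul, Polynomial.derivative_X, zero_add, mul_one]

/-- The deviation of the coordinate `k` of the line from the graph. -/
noncomputable def dl {ζ : Type} (k : Fin m)
    (G : ((Fin m → ℝ) × (Fin m → ℝ)) × ζ × ℕ → MvPolynomial (Option (Fin m)) ℝ)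
    (s : ((Fin m → ℝ) × (Fin m → ℝ)) × ζ × ℕ) : Polynomial ℝ :=
  la s (some k) - aeval (la s) (G s)

theorem natDegree_dl {ζ : Type} {K : ℕ} {k : Fin m}
    {G : ((Fin m → ℝ) × (Fin m → ℝ)) × ζ × ℕ → MvPolynomial (Option (Fin m)) ℝ}
    (hG : ∀ s, (G s).totalDegree ≤ K) (s : ((Fin m → ℝ) × (Fin m → ℝ)) × ζ × ℕ) :
    (dl k G s).natDegree ≤ K + 1 := by
  unfold dl
  refine (Polynomial.natDegree_sub_le _ _).trans (max_le ((natDegree_la s _).trans (by omega)) ?_)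
  exact (Pool.KBX.natDegree_aeval_le _ _ (natDegree_la s) (hG s)).trans (by omega)

theorem eval_dl (F : Fam m J) (w : ℕ) (k : Fin m)
    (G : LnT F → MvPolynomial (Option (Fin m)) ℝ) (ω : F.Ω) (t : ℝ) :
    (dl k G (slam F w ω)).eval t =
      F.u ω k + t * F.d ω k - eval (lt F ω t) (G (slam F w ω)) := by
  unfold dl
  rw [Polynomial.eval_sub, Pool.KBX.eval_aeval_poly, eval_la]
  have : (fun i => (la (slam F w ω) i).eval t) = lt F ω t := by
    funext o
    exact eval_la F w ω t o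
  rw [this]
  rfl

theorem der_dl (F : Fam m J) (w : ℕ) (k : Fin m)
    (G : LnT F → MvPolynomial (Option (Fin m)) ℝ) (ω : F.Ω) (t : ℝ) :
    (dl k G (slam F w ω)).derivative.eval t = F.d ω k -
      ∑ o, bd F ω o * eval (lt F ω t) (pderiv o (G (slam F w ω))) := by
  classical
  unfold dl
  rw [Polynomial.derivative_sub, Polynomial.eval_sub, der_la, Polynomial.eval_C, der_aevalσ,
    Polynomial.eval_finsetSum]
  congr 1
  refine Finset.sum_congr rfl fun o _ => ?_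
  have : (fun i => (la (slam F w ω) i).eval t) = lt F ω t := by
    funext o
    exact eval_la F w ω t o
  rw [Polynomial.eval_mul, Pool.KBX.eval_aeval_poly, this, der_la, Polynomial.eval_C]
  ring

/-- **(R2)** The deviation of a line from a polynomial graph which is a function of the line and of
the window: from the samples of an event of probability at least `η` to the whole window, with
the velocities. -/
theorem rmz_fam (m K : ℕ) (η : ℝ) (hη : 0 < η) : ∃ C : ℝ, 1 ≤ C ∧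
    ∀ (J : ℕ) (F : Fam m J) (q : F.Ω → ℝ) (A : F.Ω → Prop) (k : Fin m) (w P : ℕ) (V : Type)
    (z' : LnT F → V) (G : V → MvPolynomial (Option (Fin m)) ℝ) (E : ℝ), IsLaw q → w ≤ J →
    η ≤ Pe q A → 1 ≤ E → ((J : ℝ) - w) * Real.log 2 - E ≤ CH q F.T (slam F w) →
    C * E ≤ ((J : ℝ) - w) * Real.log 2 → (∀ v, (G v).totalDegree ≤ K) →
    (∀ ω, A ω → |F.x ω k - eval (bt F ω) (G (z' (slam F w ω)))| ≤ 1 / 2 ^ P) →
    ∃ B : F.Ω → Prop, Sub B A ∧ Pe q A - η / 2 ≤ Pe q B ∧ ∀ c : ℕ, C * E ≤ c → ∀ ω, B ω →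
      |F.d ω k - ∑ o, bd F ω o * eval (bt F ω) (pderiv o (G (z' (slam F w ω))))| ≤
        2 ^ (w + c) / 2 ^ P ∧
      ∀ t ∈ Set.Icc (((F.T ω / 2 ^ (J - w) : ℕ) : ℝ) / 2 ^ w)
        ((((F.T ω / 2 ^ (J - w) : ℕ) : ℝ) + 1) / 2 ^ w),
        |F.u ω k + t * F.d ω k - eval (lt F ω t) (G (z' (slam F w ω)))| ≤ 2 ^ c / 2 ^ P ∧
        |F.d ω k - ∑ o, bd F ω o * eval (lt F ω t) (pderiv o (G (z' (slam F w ω))))| ≤
          2 ^ (w + c) / 2 ^ P := by
  classical
  obtain ⟨C, hC, h⟩ := rmz_pure (K + 1) η hη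
  refine ⟨C, hC, ?_⟩
  intro J F q A k w P V z' G E hq hw hA hE hCH hJ hG hpos
  obtain ⟨B, h1, h2, h3⟩ := h J w P F.Ω (LnT F) q F.T (slam F w) A E
    (dl k fun s => G (z' s)) hq F.tim hw (fun ω ω' _ _ he => congrArg (fun s => s.2.2) he) hA hE
    hCH hJ (fun s => natDegree_dl (fun s => hG _) s) (fun ω hω => by
      have e : (F.T ω : ℝ) / 2 ^ J = F.t ω := rfl
      rw [e, eval_dl, lt_t]
      exact hpos ω hω)
  refine ⟨B, h1, h2, fun c hc ω hω => ?_⟩
  have h4 : ∀ t ∈ Set.Icc (((F.T ω / 2 ^ (J - w) : ℕ) : ℝ) / 2 ^ w)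
        ((((F.T ω / 2 ^ (J - w) : ℕ) : ℝ) + 1) / 2 ^ w),
        |F.u ω k + t * F.d ω k - eval (lt F ω t) (G (z' (slam F w ω)))| ≤ 2 ^ c / 2 ^ P ∧
        |F.d ω k - ∑ o, bd F ω o * eval (lt F ω t) (pderiv o (G (z' (slam F w ω))))| ≤
          2 ^ (w + c) / 2 ^ P := by
    intro t ht
    have h5 := h3 c hc ω hω t ht
    rw [eval_dl, der_dl] at h5
    exact h5
  refine ⟨?_, h4⟩
  have h5 : F.t ω ∈ Set.Icc (((F.T ω / 2 ^ (J - w) : ℕ) : ℝ) / 2 ^ w)
        ((((F.T ω / 2 ^ (J - w) : ℕ) : ℝ) + 1) / 2 ^ w) := by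
    have e : F.t ω = (F.T ω : ℝ) / 2 ^ J := rfl
    rw [e, time_split hw]
    have h6 : (0 : ℝ) ≤ ((F.T ω % 2 ^ (J - w) : ℕ) : ℝ) / ((2 ^ (J - w) : ℕ) : ℝ) := by
      positivity
    have h7 : ((F.T ω % 2 ^ (J - w) : ℕ) : ℝ) / ((2 ^ (J - w) : ℕ) : ℝ) ≤ 1 := by
      rw [div_le_one (by positivity)]
      have := (Nat.mod_lt (F.T ω) (y := 2 ^ (J - w)) (by positivity)).le
      exact_mod_cast this
    exact ⟨div_le_div_of_nonneg_right (by linarith) (by positivity),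
      div_le_div_of_nonneg_right (by linarith) (by positivity)⟩
  have h6 := (h4 _ h5).2
  rw [lt_t] at h6
  exact h6

end

end Pool.STAT.Rmz
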